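import Pool.Agent.H554.CB.Short

set_option autoImplicit false

open Finset Filter Topology

namespace Pool.Agent.H554.CB

open Pool.Agent.H469R2.NK (e norm_e e_add e_zero)

lemma saving : ∀ᶠ i : ℕ in atTop, 120 * (i : ℝ) ^ 9 * (2 : ℝ) ^ (-((i : ℝ) ^ (3 / 4 : ℝ) / 200)) ≤ 1 := by
  have hb : 0 < Real.log 2 / 200 := by have := Real.log_pos (by norm_num : (1 : ℝ) < 2); positivity
  have h1 := tendsto_rpow_mul_exp_neg_mul_atTop_nhds_zero 12 (Real.log 2 / 200) hb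
  have h2 : Tendsto (fun i : ℕ => (i : ℝ) ^ (3 / 4 : ℝ)) atTop atTop :=
    (tendsto_rpow_atTop (by norm_num)).comp tendsto_natCast_atTop_atTop
  have h3 := (h1.comp h2).eventually_lt_const (show (0 : ℝ) < 1 / 120 by norm_num)
  filter_upwards [h3, eventually_ge_atTop 1] with i hi hi1
  have hi0 : (0 : ℝ) < i := by exact_mod_cast hi1
  simp only [Function.comp] at hi
  have e1 : ((i : ℝ) ^ (3 / 4 : ℝ)) ^ (12 : ℝ) = (i : ℝ) ^ 9 := by
    rw [← Real.rpow_mul hi0.le, ← Real.rpow_natCast]; norm_num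
  have e2 : Real.exp (-(Real.log 2 / 200) * (i : ℝ) ^ (3 / 4 : ℝ)) =
      (2 : ℝ) ^ (-((i : ℝ) ^ (3 / 4 : ℝ) / 200)) := by
    rw [Real.rpow_def_of_pos (by norm_num : (0 : ℝ) < 2)]; congr 1; ring
  rw [e1, e2] at hi
  nlinarith

lemma main_saving {i u H d R : ℕ} (hs : 120 * (i : ℝ) ^ 9 * (2 : ℝ) ^ (-((i : ℝ) ^ (3 / 4 : ℝ) / 200)) ≤ 1)
    (hi0 : 1 ≤ i) (hi1 : 32 * u ≤ i) (hH : H = 2 ^ (i - 4 * u)) (hR : R = Nat.log 256 i)
    (hd : 0 < d) (hd2 : d ≤ (2 ^ u) ^ 2) :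
    (5 / 4) ^ R * (60 * (2 * (H : ℝ) / d) ^ (1 - 1 / 100 / 4 ^ R : ℝ)) ≤ (H : ℝ) / i ^ 8 / d := by
  have hi0' : (1 : ℝ) ≤ i := by exact_mod_cast hi0
  have hdR : (0 : ℝ) < d := by exact_mod_cast hd
  have hHR : (0 : ℝ) < H := by
    have : 0 < H := by rw [hH]; positivity
    exact_mod_cast this
  have hd3 : d ≤ 2 ^ (2 * u) := by rw [← pow_mul, mul_comm u 2] at hd2; exact hd2
  set N : ℝ := 2 * (H : ℝ) / d with hN
  have hNpos : 0 < N := by positivity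
  have hNlow : (2 : ℝ) ^ ((i : ℝ) / 2) ≤ N := by
    have h1 : (2 : ℝ) ^ (i - 6 * u + 1) ≤ N := by
      rw [hN, le_div_iff₀ hdR]
      have h1 : 2 ^ (i - 6 * u + 1) * d ≤ 2 * H := by
        calc 2 ^ (i - 6 * u + 1) * d ≤ 2 ^ (i - 6 * u + 1) * 2 ^ (2 * u) := Nat.mul_le_mul_left _ hd3
          _ = 2 * H := by rw [hH, ← pow_add, ← pow_succ']; congr 1; omega
      exact_mod_cast h1
    refine le_trans ?_ h1
    rw [← Real.rpow_natCast]
    apply Real.rpow_le_rpow_of_exponent_le (by norm_num)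
    have h2 : ((i - 6 * u + 1 : ℕ) : ℝ) = (i : ℝ) - 6 * u + 1 := by
      have : 6 * u ≤ i := by omega
      push_cast [Nat.cast_sub this]; ring
    rw [h2]
    have h3 : 32 * (u : ℝ) ≤ i := by exact_mod_cast hi1
    linarith
  have h256 : (256 : ℝ) ^ R ≤ i := by
    have : 256 ^ R ≤ i := by rw [hR]; exact Nat.pow_log_le_self _ (by omega)
    exact_mod_cast this
  have h4R : (4 : ℝ) ^ R ≤ (i : ℝ) ^ (1 / 4 : ℝ) := by
    have h1 : ((4 : ℝ) ^ R) ^ 4 = 256 ^ R := by rw [← pow_mul, mul_comm, pow_mul]; norm_num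
    have h2 : (4 : ℝ) ^ R = (((4 : ℝ) ^ R) ^ 4) ^ (1 / 4 : ℝ) := by
      rw [← Real.rpow_natCast ((4 : ℝ) ^ R) 4, ← Real.rpow_mul (by positivity)]; norm_num
    rw [h2, h1]
    gcongr
  have h54 : (5 / 4 : ℝ) ^ R ≤ i := by
    refine le_trans ?_ h256
    gcongr; norm_num
  set ε : ℝ := 1 / 100 / 4 ^ R with hε
  have hε0 : 0 < ε := by positivity
  have hexp : (i : ℝ) ^ (3 / 4 : ℝ) / 200 ≤ (i : ℝ) / 2 * ε := by
    have h1 : (i : ℝ) ^ (3 / 4 : ℝ) = i / (i : ℝ) ^ (1 / 4 : ℝ) := by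
      rw [eq_div_iff (by positivity), ← Real.rpow_add (by linarith)]
      norm_num
    rw [h1, hε]
    calc (i : ℝ) / (i : ℝ) ^ (1 / 4 : ℝ) / 200 ≤ i / 4 ^ R / 200 := by gcongr
      _ = _ := by ring
  have hNε : N ^ (-ε) ≤ (2 : ℝ) ^ (-((i : ℝ) ^ (3 / 4 : ℝ) / 200)) := by
    calc N ^ (-ε) ≤ ((2 : ℝ) ^ ((i : ℝ) / 2)) ^ (-ε) :=
          Real.rpow_le_rpow_of_nonpos (by positivity) hNlow (by linarith)
      _ = (2 : ℝ) ^ (-((i : ℝ) / 2 * ε)) := by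
          rw [← Real.rpow_mul (by norm_num)]; congr 1; ring
      _ ≤ _ := by
          apply Real.rpow_le_rpow_of_exponent_le (by norm_num)
          linarith
  have hsplit : N ^ (1 - ε) = N * N ^ (-ε) := by
    rw [sub_eq_add_neg, Real.rpow_add hNpos, Real.rpow_one]
  rw [hsplit]
  calc (5 / 4) ^ R * (60 * (N * N ^ (-ε))) ≤ i * (60 * (N * (2 : ℝ) ^ (-((i : ℝ) ^ (3 / 4 : ℝ) / 200)))) := by
        gcongr
    _ = (H : ℝ) / i ^ 8 / d * (120 * (i : ℝ) ^ 9 * (2 : ℝ) ^ (-((i : ℝ) ^ (3 / 4 : ℝ) / 200))) := by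
        rw [hN]; field_simp; ring
    _ ≤ (H : ℝ) / i ^ 8 / d * 1 := by gcongr
    _ = _ := by ring

/-- asymptotics for the weights in residue classes `0 mod d` -/
lemma rem_bound {n y H d u i J R : ℕ} (hu : 7 ≤ u) (hi1 : 32 * u ≤ i) (hi2 : i < 32 * u + 32)
    (hs : 120 * (i : ℝ) ^ 9 * (2 : ℝ) ^ (-((i : ℝ) ^ (3 / 4 : ℝ) / 200)) ≤ 1)
    (hH : H = 2 ^ (i - 4 * u)) (hy : 2 ^ i ≤ y) (hyH : y + H ≤ 2 ^ (i + 1)) (hn0 : n ≠ 0)
    (hJ : J = Nat.log (y + H) n) (hlog : Real.log n ^ 20 ≤ 2 ^ (i + 1)) (hR : R = Nat.log 256 i)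
    (hd : 0 < d) (hd2 : d ≤ (2 ^ u) ^ 2) :
    |∑ x ∈ (Ico y (y + H)).filter (fun x => d ∣ x), wt n (TT R J) x -
      (7 / 8) ^ (TT R J).card * (H : ℝ) / d| ≤ (H : ℝ) / i ^ 8 / d + 1 := by
  have hdR : (0 : ℝ) < d := by exact_mod_cast hd
  have hsz := sz_of hu hi1 hi2 hH hy hyH hn0 hJ hlog hR hd hd2
  rw [sum_multiples y H d hd]
  obtain ⟨c1, c2⟩ := ceil_bounds y d hd
  obtain ⟨c3, c4⟩ := ceil_bounds (y + H) d hd
  have hXX : (y + d - 1) / d ≤ (y + H + d - 1) / d := Nat.div_le_div_right (by omega)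
  set X := (y + d - 1) / d with hX
  set X' := (y + H + d - 1) / d with hX'
  set L := X' - X with hL
  set T := TT R J with hT
  have hTc : T.card ≤ R := by
    rw [hT]; unfold TT; rw [Nat.card_Ico]; omega
  have hTm : ∀ m ∈ T, 1 ≤ m ∧ m < J ∧ J ≤ m + R := by
    intro m hm
    rw [hT] at hm; unfold TT at hm; rw [mem_Ico] at hm
    omega
  have hws := weight_sum T (fun m t => (n : ℝ) / ((d : ℝ) * (X + t)) ^ m) L
    (60 * (2 * (H : ℝ) / d) ^ (1 - 1 / 100 / 4 ^ R : ℝ)) (by positivity) (by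
      intro a ha hne
      exact expsum hsz T a ha hTm hTc hne)
  have hwt : ∀ t ∈ range L, wt n T (d * (X + t)) =
      ∏ m ∈ T, psi ((fun (m t : ℕ) => (n : ℝ) / ((d : ℝ) * (X + t)) ^ m) m t) := by
    intro t _
    unfold wt
    push_cast
    rfl
  rw [sum_congr rfl hwt]
  have h1 : |((7 : ℝ) / 8) ^ T.card * L - (7 / 8) ^ T.card * (H : ℝ) / d| ≤ 1 := by
    have h2 : |(L : ℝ) - H / d| ≤ 1 := by
      have h3 : |(d : ℝ) * L - H| ≤ d := by
        have h4 : d * L ≤ H + d := by rw [hL, Nat.mul_sub]; omega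
        have h5 : H ≤ d * L + d := by rw [hL, Nat.mul_sub]; omega
        have h4' : (d : ℝ) * L ≤ H + d := by exact_mod_cast h4
        have h5' : (H : ℝ) ≤ d * L + d := by exact_mod_cast h5
        rw [abs_le]; constructor <;> linarith
      have h4 : (L : ℝ) - H / d = (d * L - H) / d := by field_simp
      rw [h4, abs_div, abs_of_pos hdR, div_le_one hdR]
      exact h3
    have h3 : ((7 : ℝ) / 8) ^ T.card * L - (7 / 8) ^ T.card * (H : ℝ) / d =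
        (7 / 8) ^ T.card * (L - H / d) := by ring
    rw [h3, abs_mul, abs_of_nonneg (by positivity)]
    have h4 : ((7 : ℝ) / 8) ^ T.card ≤ 1 := pow_le_one₀ (by norm_num) (by norm_num)
    have h5 := abs_nonneg ((L : ℝ) - H / d)
    calc ((7 : ℝ) / 8) ^ T.card * |(L : ℝ) - H / d| ≤ 1 * 1 := by gcongr
      _ = 1 := by norm_num
  have h2 : (5 / 4 : ℝ) ^ T.card * (60 * (2 * (H : ℝ) / d) ^ (1 - 1 / 100 / 4 ^ R : ℝ)) ≤
      (H : ℝ) / i ^ 8 / d := by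
    refine le_trans ?_ (main_saving hs (by omega) hi1 hH hR hd hd2)
    gcongr
    norm_num
  set S := ∑ t ∈ range L, ∏ m ∈ T, psi ((fun (m t : ℕ) => (n : ℝ) / ((d : ℝ) * (X + t)) ^ m) m t)
  have h3 : S - (7 / 8) ^ T.card * (H : ℝ) / d = (S - (7 / 8) ^ T.card * L) +
      ((7 / 8) ^ T.card * L - (7 / 8) ^ T.card * (H : ℝ) / d) := by ring
  rw [h3]
  refine (abs_add_le _ _).trans ?_
  exact add_le_add (hws.trans h2) h1

/-- the weighted number of primes in a short interval -/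
theorem short_block {n y H u i J R : ℕ} (hu : 7 ≤ u) (hi1 : 32 * u ≤ i) (hi2 : i < 32 * u + 32)
    (hs : 120 * (i : ℝ) ^ 9 * (2 : ℝ) ^ (-((i : ℝ) ^ (3 / 4 : ℝ) / 200)) ≤ 1)
    (hH : H = 2 ^ (i - 4 * u)) (hy : 2 ^ i ≤ y) (hyH : y + H ≤ 2 ^ (i + 1)) (hn0 : n ≠ 0)
    (hJ : J = Nat.log (y + H) n) (hlog : Real.log n ^ 20 ≤ 2 ^ (i + 1)) (hR : R = Nat.log 256 i) :
    ∑ p ∈ (Ico y (y + H)).filter Nat.Prime, wt n (TT R J) p ≤
      H * (400 * (7 / 8) ^ (TT R J).card / i + 2 / i ^ 2) := by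
  have hi0' : (1 : ℝ) ≤ i := by exact_mod_cast (by omega : 1 ≤ i)
  have hHR : (0 : ℝ) < H := by
    have : 0 < H := by rw [hH]; positivity
    exact_mod_cast this
  set T := TT R J with hT
  have hsv := weighted_sieve2 (Ico y (y + H)) (wt n T) (wt_nonneg n T) ((7 / 8) ^ T.card * (H : ℝ))
    ((H : ℝ) / i ^ 8) 1 (by positivity) (by positivity) (by norm_num) (2 ^ u) Nat.one_le_two_pow (by
      intro d hd hd2
      exact rem_bound hu hi1 hi2 hs hH hy hyH hn0 hJ hlog hR hd hd2)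
  have hfil : (Ico y (y + H)).filter (fun p => p.Prime ∧ 2 ^ u < p) =
      (Ico y (y + H)).filter Nat.Prime := by
    apply filter_congr
    intro p hp
    rw [mem_Ico] at hp
    have : 2 ^ u < 2 ^ i := Nat.pow_lt_pow_right (by norm_num) (by omega)
    constructor
    · exact fun h => h.1
    · exact fun h => ⟨h, by omega⟩
  rw [hfil] at hsv
  refine hsv.trans ?_
  have hl2 : (0.69 : ℝ) < Real.log 2 := by have := Real.log_two_gt_d9; linarith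
  have hl2' : Real.log 2 < 1 := by have := Real.log_two_lt_d9; linarith
  have hlogD : Real.log ((2 ^ u : ℕ) : ℝ) = u * Real.log 2 := by
    push_cast; rw [Real.log_pow]
  have hu' : (i : ℝ) ≤ 64 * u := by
    have : i ≤ 64 * u := by omega
    exact_mod_cast this
  have hu'' : (32 : ℝ) * u ≤ i := by exact_mod_cast hi1
  have hu7 : (7 : ℝ) ≤ u := by exact_mod_cast hu
  have h1 : (i : ℝ) / 100 ≤ Real.log (((2 ^ u : ℕ) : ℝ) + 1) := by
    calc (i : ℝ) / 100 ≤ u * Real.log 2 := by nlinarith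
      _ = Real.log ((2 ^ u : ℕ) : ℝ) := hlogD.symm
      _ ≤ _ := Real.log_le_log (by positivity) (by linarith)
  have hA : 4 * ((7 / 8) ^ T.card * (H : ℝ)) / Real.log (((2 ^ u : ℕ) : ℝ) + 1) ≤
      H * (400 * (7 / 8) ^ T.card / i) := by
    calc 4 * ((7 / 8) ^ T.card * (H : ℝ)) / Real.log (((2 ^ u : ℕ) : ℝ) + 1)
        ≤ 4 * ((7 / 8) ^ T.card * (H : ℝ)) / ((i : ℝ) / 100) := by gcongr
      _ = _ := by field_simp; ring
  have hB : (H : ℝ) / i ^ 8 * (1 + Real.log ((2 ^ u : ℕ) : ℝ)) ^ 3 ≤ H * (1 / i ^ 2) := by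
    have h2 : 1 + Real.log ((2 ^ u : ℕ) : ℝ) ≤ i := by rw [hlogD]; nlinarith
    have h3 : 0 ≤ 1 + Real.log ((2 ^ u : ℕ) : ℝ) := by rw [hlogD]; nlinarith
    calc (H : ℝ) / i ^ 8 * (1 + Real.log ((2 ^ u : ℕ) : ℝ)) ^ 3 ≤ (H : ℝ) / i ^ 8 * (i : ℝ) ^ 3 := by
          gcongr
      _ = H * (1 / (i : ℝ) ^ 5) := by field_simp
      _ ≤ H * (1 / (i : ℝ) ^ 2) := by
          gcongr
          norm_num
  have hC : 1 * ((2 ^ u : ℕ) : ℝ) ^ 2 ≤ H * (1 / (i : ℝ) ^ 2) := by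
    rw [mul_one_div, le_div_iff₀ (by positivity)]
    have hau := aux_u u hu
    have h2 : i ≤ 2 ^ (2 * u) := by
      have : 2 ^ (2 * u - 1) ≤ 2 ^ (2 * u) := Nat.pow_le_pow_right (by norm_num) (by omega)
      omega
    have h3 : (2 ^ u) ^ 2 * i ^ 2 ≤ H := by
      calc (2 ^ u) ^ 2 * i ^ 2 ≤ (2 ^ u) ^ 2 * (2 ^ (2 * u)) ^ 2 := by gcongr
        _ = 2 ^ (6 * u) := by rw [← pow_mul, ← pow_mul, ← pow_add]; congr 1; omega
        _ ≤ H := by rw [hH]; exact Nat.pow_le_pow_right (by norm_num) (by omega)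
    rw [one_mul]
    exact_mod_cast h3
  calc _ ≤ H * (400 * (7 / 8) ^ T.card / i) + H * (1 / (i : ℝ) ^ 2) + H * (1 / (i : ℝ) ^ 2) :=
        add_le_add (add_le_add hA hB) hC
    _ = _ := by ring

end Pool.Agent.H554.CB
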