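import Pool.Agent.H554.CB.Vdc

set_option autoImplicit false

open Finset

namespace Pool.Agent.H554.CB

/-- forward difference of a real function -/
def rdif (g : ℝ → ℝ) : ℝ → ℝ := fun x => g (x + 1) - g x

/-- inverse powers -/
noncomputable def ip (m : ℕ) (x : ℝ) : ℝ := 1 / x ^ m

lemma ip_hasDeriv (m : ℕ) (x : ℝ) (hx : 0 < x) : HasDerivAt (ip m) (-(m : ℝ) * ip (m + 1) x) x := by
  have h := (hasDerivAt_pow m x).inv (pow_ne_zero m hx.ne')
  have h2 : (fun x : ℝ => x ^ m)⁻¹ = ip m := by
    funext y; simp [ip]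
  rw [h2] at h
  refine h.congr_deriv ?_
  unfold ip
  rcases Nat.eq_zero_or_pos m with hm | hm
  · subst hm; simp
  · obtain ⟨m, rfl⟩ : ∃ k, m = k + 1 := ⟨m - 1, by omega⟩
    simp only [Nat.add_sub_cancel]
    field_simp
    ring

lemma rdif_iter_hasDeriv (k m : ℕ) : ∀ x : ℝ, 0 < x →
    HasDerivAt (rdif^[k] (ip m)) (-(m : ℝ) * rdif^[k] (ip (m + 1)) x) x := by
  induction k with
  | zero => intro x hx; exact ip_hasDeriv m x hx
  | succ k ih =>
    intro x hx
    have h1 := (ih (x + 1) (by linarith)).comp_add_const x 1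
    have h2 := ih x hx
    have h3 := h1.sub h2
    rw [Function.iterate_succ_apply', Function.iterate_succ_apply']
    refine HasDerivAt.congr_deriv (f := rdif (rdif^[k] (ip m))) h3 ?_
    unfold rdif
    ring

lemma rdif_bounds (k : ℕ) : ∀ (m : ℕ) (x : ℝ), 0 < x →
    (m.ascFactorial k : ℝ) * (1 / (x + k) ^ (m + k)) ≤ (-1) ^ k * rdif^[k] (ip m) x ∧
    (-1) ^ k * rdif^[k] (ip m) x ≤ (m.ascFactorial k : ℝ) * (1 / x ^ (m + k)) := by
  induction k with
  | zero => intro m x hx; simp [ip]
  | succ k ih =>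
    intro m x hx
    obtain ⟨ξ, ⟨h1, h2⟩, h3⟩ := exists_hasDerivAt_eq_slope (rdif^[k] (ip m))
      (fun x => -(m : ℝ) * rdif^[k] (ip (m + 1)) x) (show x < x + 1 by linarith)
      (fun y hy => (rdif_iter_hasDeriv k m y (by linarith [hy.1])).continuousAt.continuousWithinAt)
      (fun y hy => rdif_iter_hasDeriv k m y (by linarith [hy.1]))
    have hξ : 0 < ξ := by linarith
    obtain ⟨h4, h5⟩ := ih (m + 1) ξ hξ
    have h6 : (-1 : ℝ) ^ (k + 1) * rdif^[k + 1] (ip m) x =
        m * ((-1) ^ k * rdif^[k] (ip (m + 1)) ξ) := by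
      rw [Function.iterate_succ_apply']
      have h7 : rdif (rdif^[k] (ip m)) x = -(m : ℝ) * rdif^[k] (ip (m + 1)) ξ := by
        rw [h3]; unfold rdif; simp
      rw [h7, pow_succ]; ring
    have h8 : ((m.ascFactorial (k + 1) : ℕ) : ℝ) = m * ((m + 1).ascFactorial k : ℝ) := by
      rw [← Nat.cast_mul, Nat.ascFactorial_succ, ← Nat.succ_ascFactorial]
    have hm : (0 : ℝ) ≤ m := Nat.cast_nonneg m
    rw [h6, h8]
    constructor
    · calc (m : ℝ) * ((m + 1).ascFactorial k : ℝ) * (1 / (x + (k + 1 : ℕ)) ^ (m + (k + 1)))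
          ≤ m * ((m + 1).ascFactorial k : ℝ) * (1 / (ξ + k) ^ (m + (k + 1))) := by
            have : ξ + k ≤ x + (k + 1 : ℕ) := by push_cast; linarith
            have h9 : 0 < ξ + k := by positivity
            gcongr
        _ = m * (((m + 1).ascFactorial k : ℝ) * (1 / (ξ + k) ^ (m + 1 + k))) := by
            rw [show m + 1 + k = m + (k + 1) by ring]; ring
        _ ≤ _ := by gcongr
    · calc (m : ℝ) * ((-1) ^ k * rdif^[k] (ip (m + 1)) ξ)
          ≤ m * (((m + 1).ascFactorial k : ℝ) * (1 / ξ ^ (m + 1 + k))) := by gcongr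
        _ = m * ((m + 1).ascFactorial k : ℝ) * (1 / ξ ^ (m + (k + 1))) := by
            rw [show m + 1 + k = m + (k + 1) by ring]; ring
        _ ≤ _ := by gcongr

lemma dif_iter_real (g : ℝ → ℝ) (x0 : ℝ) (k n : ℕ) :
    dif^[k] (fun n : ℕ => g (x0 + n)) n = rdif^[k] g (x0 + n) := by
  induction k generalizing g with
  | zero => rfl
  | succ k ih =>
    rw [Function.iterate_succ_apply, Function.iterate_succ_apply]
    have : dif (fun n : ℕ => g (x0 + n)) = fun n : ℕ => (rdif g) (x0 + n) := by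
      funext n; unfold dif rdif; push_cast; rw [add_assoc]
    rw [this, ih]

lemma dif_iter_const_mul (c : ℝ) (f : ℕ → ℝ) (k n : ℕ) :
    dif^[k] (fun n => c * f n) n = c * dif^[k] f n := by
  induction k generalizing f with
  | zero => rfl
  | succ k ih =>
    rw [Function.iterate_succ_apply, Function.iterate_succ_apply, ← ih]
    have : dif (fun n => c * f n) = fun n => c * dif f n := by
      funext n; unfold dif; ring
    rw [this]

lemma dif_iter_add (f g : ℕ → ℝ) (k n : ℕ) :
    dif^[k] (fun n => f n + g n) n = dif^[k] f n + dif^[k] g n := by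
  induction k generalizing f g with
  | zero => rfl
  | succ k ih =>
    rw [Function.iterate_succ_apply, Function.iterate_succ_apply, Function.iterate_succ_apply, ← ih,
      dif_add]

lemma dif_iter_zero (k n : ℕ) : dif^[k] (fun _ => 0) n = 0 := by
  induction k with
  | zero => rfl
  | succ k ih =>
    rw [Function.iterate_succ_apply]
    have : dif (fun _ => 0) = fun _ => 0 := by funext n; unfold dif; ring
    rw [this, ih]

lemma dif_iter_sum {ι : Type*} (s : Finset ι) (f : ι → ℕ → ℝ) (k n : ℕ) :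
    dif^[k] (fun n => ∑ i ∈ s, f i n) n = ∑ i ∈ s, dif^[k] (f i) n := by
  classical
  induction s using Finset.induction_on with
  | empty => simp only [sum_empty]; exact dif_iter_zero k n
  | insert a s ha ih =>
    rw [sum_insert ha, ← ih, ← dif_iter_add]
    have : (fun n => ∑ i ∈ insert a s, f i n) = fun n => f a n + ∑ i ∈ s, f i n := by
      funext n; rw [sum_insert ha]
    rw [this]

end Pool.Agent.H554.CB
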