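import Pool.Agent.H554.CB.Phase

set_option autoImplicit false

open Finset

namespace Pool.Agent.H554.CB

open Pool.Agent.H469R2.NK (e norm_e e_add conj_e vdcH kusmin_landau_mono norm_sum_neg)

/-- the hypotheses linking the sizes -/
structure Sz (n y H d J R X L : ℕ) (N : ℝ) : Prop where
  hd : 0 < d
  hy : 0 < y
  hyX : y ≤ d * X
  hXy : d * X ≤ y + H
  hLN : (L : ℝ) ≤ N
  hn1 : (y + H) ^ J ≤ n
  hn2 : n < (y + H) ^ (J + 1)
  s1 : 4 * ((J + (2 * R + 2)) * (L + (2 * R + 2))) ≤ X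
  s2 : 16 * (R * (2 * R + 2 + 1)) ≤ y
  s3 : 2 * ((J : ℝ) + (2 * R + 2)) ^ 2 * (d : ℝ) ^ 2 * N ^ (1 / 25 : ℝ) ≤ y
  s4 : (y : ℝ) + H ≤ N ^ (3 / 2 - 1 / 25 : ℝ)
  s5 : (2 : ℝ) ^ 25 < N
  s6 : 4 * (J * H) ≤ y
  s7 : H ≤ y

theorem expsum {n y H d J R X L : ℕ} {N : ℝ} (hs : Sz n y H d J R X L N) (T : Finset ℕ)
    (a : ℕ → ℤ) (ha : ∀ m, |a m| ≤ 2) (hT : ∀ m ∈ T, 1 ≤ m ∧ m < J ∧ J ≤ m + R)
    (hTc : T.card ≤ R) (hne : ∃ m ∈ T, a m ≠ 0) :
    ‖∑ t ∈ range L, e (ph n T a (d * (X + t)))‖ ≤ 60 * N ^ (1 - 1 / 100 / 4 ^ R : ℝ) := by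
  obtain ⟨hd, hy, hyX, hXy, hLN, hn1, hn2, s1, s2, s3, s4, s5, s6, s7⟩ := hs
  have hN1 : (1 : ℝ) ≤ N := le_trans (by norm_num) s5.le
  have hN0 : (0 : ℝ) < N := by linarith
  -- choose m0
  obtain ⟨m0, hm0, hmin'⟩ := (T.filter fun m => a m ≠ 0).exists_min_image id (by
    obtain ⟨m, h1, h2⟩ := hne
    exact ⟨m, mem_filter.2 ⟨h1, h2⟩⟩)
  rw [mem_filter] at hm0
  have hmin : ∀ m ∈ T, a m ≠ 0 → m0 ≤ m := fun m h1 h2 => hmin' m (mem_filter.2 ⟨h1, h2⟩)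
  obtain ⟨hm1, hmJ, hJR⟩ := hT m0 hm0.1
  have hX : 0 < X := by
    rcases Nat.eq_zero_or_pos X with h | h
    · rw [h] at hyX; omega
    · exact h
  have hd' : (1 : ℝ) ≤ d := by exact_mod_cast hd
  have hX' : (1 : ℝ) ≤ X := by exact_mod_cast hX
  have hy' : (1 : ℝ) ≤ y := by exact_mod_cast hy
  have hyX' : (y : ℝ) ≤ d * X := by exact_mod_cast hyX
  have hXy' : (d : ℝ) * X ≤ y + H := by exact_mod_cast hXy
  have hXle : (X : ℝ) ≤ y + H := le_trans (le_mul_of_one_le_left (by linarith) hd') hXy'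
  have hn1' : ((y : ℝ) + H) ^ J ≤ n := by exact_mod_cast hn1
  have hn2' : (n : ℝ) ≤ ((y : ℝ) + H) ^ (J + 1) := by exact_mod_cast hn2.le
  have hyH1 : (1 : ℝ) ≤ (y : ℝ) + H := by
    have : (0 : ℝ) ≤ H := Nat.cast_nonneg H
    linarith
  have hm1' : (1 : ℝ) ≤ m0 := by exact_mod_cast hm1
  have hdX : (0 : ℝ) < d * X := by positivity
  obtain ⟨r, hr⟩ : ∃ r, J = r + m0 := ⟨J - m0, by omega⟩
  have hr1 : 1 ≤ r := by omega
  have hrR : r ≤ R := by omega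
  -- lower bounds
  have hL0 : (y : ℝ) + H ≤ Lam n d X m0 0 := by
    rw [Lam_zero, le_div_iff₀ (by positivity)]
    calc ((y : ℝ) + H) * ((d : ℝ) * X) ^ m0 ≤ ((y : ℝ) + H) ^ r * ((y : ℝ) + H) ^ m0 := by
          gcongr
          exact le_self_pow₀ hyH1 (by omega)
      _ = ((y : ℝ) + H) ^ J := by rw [hr, pow_add]
      _ ≤ n := hn1'
  have hL1 : 1 ≤ Lam n d X m0 1 := by
    rw [show (1 : ℕ) = 0 + 1 from rfl, Lam_succ_k hX]
    have h1 : 1 ≤ ((y : ℝ) + H) * (((m0 : ℝ) + (0 : ℕ)) / X) := by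
      rw [← mul_div_assoc, le_div_iff₀ (by positivity), one_mul]
      push_cast
      nlinarith
    refine h1.trans ?_
    gcongr
  -- upper bounds
  have hU0 : Lam n d X m0 0 ≤ 4 / 3 * ((y : ℝ) + H) ^ (R + 1) := by
    rw [Lam_zero]
    have h1 : 3 / 4 * (1 / (y : ℝ) ^ m0) ≤ 1 / ((y : ℝ) + H) ^ m0 := by
      apply bern (by linarith) (by positivity)
      have h2 : 4 * ((J : ℝ) * H) ≤ y := by exact_mod_cast s6
      have h3 : (m0 : ℝ) ≤ J := by exact_mod_cast hmJ.le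
      calc 4 * ((m0 : ℝ) * H) ≤ 4 * ((J : ℝ) * H) := by gcongr
        _ ≤ y := h2
    calc (n : ℝ) / ((d : ℝ) * X) ^ m0 ≤ ((y : ℝ) + H) ^ (J + 1) / (y : ℝ) ^ m0 := by gcongr
      _ = ((y : ℝ) + H) ^ (r + 1) * ((y : ℝ) + H) ^ m0 * (1 / (y : ℝ) ^ m0) := by
        rw [hr]; ring
      _ ≤ ((y : ℝ) + H) ^ (r + 1) * ((y : ℝ) + H) ^ m0 * (4 / 3 * (1 / ((y : ℝ) + H) ^ m0)) := by
        gcongr; linarith
      _ = 4 / 3 * ((y : ℝ) + H) ^ (r + 1) := by field_simp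
      _ ≤ _ := by gcongr
  have hUk : ∀ k ≤ 2 * R + 2, Lam n d X m0 k ≤
      Lam n d X m0 0 * (((J : ℝ) + (2 * R + 2)) / X) ^ k := by
    intro k
    induction k with
    | zero => intro _; simp
    | succ k ih =>
      intro hk
      rw [Lam_succ_k hX, pow_succ, ← mul_assoc]
      have h1 := ih (by omega)
      have h2 : (m0 : ℝ) + k ≤ (J : ℝ) + (2 * R + 2) := by
        have : m0 + k ≤ J + (2 * R + 2) := by omega
        exact_mod_cast this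
      have h3 := Lam_nonneg n d X m0 0
      gcongr
  have hNr : N ^ (-(1 / 25) : ℝ) = 1 / N ^ (1 / 25 : ℝ) := by
    rw [Real.rpow_neg hN0.le]
    exact (one_div _).symm
  have hNr0 : 0 < N ^ (-(1 / 25) : ℝ) := by positivity
  have hNr1 : N ^ (-(1 / 25) : ℝ) ≤ 1 := Real.rpow_le_one_of_one_le_of_nonpos hN1 (by norm_num)
  have hNr2 : N ^ (-(1 / 25) : ℝ) < 1 / 2 := by
    rw [hNr]
    have h1 : (2 : ℝ) < N ^ (1 / 25 : ℝ) := by
      calc (2 : ℝ) = ((2 : ℝ) ^ 25) ^ (1 / 25 : ℝ) := by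
            rw [← Real.rpow_natCast, ← Real.rpow_mul (by norm_num)]; norm_num
        _ < _ := by gcongr
    exact one_div_lt_one_div_of_lt (by norm_num) h1
  have hend : Lam n d X m0 (2 * R + 2) / 2 ≤ N ^ (-(1 / 25) : ℝ) := by
    set Q : ℝ := (J : ℝ) + (2 * R + 2) with hQ
    have hQ0 : 0 < Q := by positivity
    have h1 := hUk (2 * R + 2) le_rfl
    have h2 : ((y : ℝ) + H) * (Q / X) ^ 2 ≤ N ^ (-(1 / 25) : ℝ) := by
      have h3 : Q / X ≤ Q * d / y := by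
        rw [div_le_div_iff₀ (by positivity) (by positivity)]
        calc Q * y ≤ Q * (d * X) := by gcongr
          _ = _ := by ring
      have h4 : (y : ℝ) + H ≤ 2 * y := by
        have : (H : ℝ) ≤ y := by exact_mod_cast s7
        linarith
      calc ((y : ℝ) + H) * (Q / X) ^ 2 ≤ (2 * y) * (Q * d / y) ^ 2 := by gcongr
        _ = 2 * Q ^ 2 * (d : ℝ) ^ 2 / y := by field_simp
        _ ≤ _ := by
          rw [hNr, div_le_div_iff₀ (by positivity) (by positivity), one_mul]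
          exact s3
    have h5 : Lam n d X m0 (2 * R + 2) ≤ 4 / 3 * N ^ (-(1 / 25) : ℝ) := by
      calc Lam n d X m0 (2 * R + 2) ≤ Lam n d X m0 0 * (Q / X) ^ (2 * R + 2) := h1
        _ ≤ (4 / 3 * ((y : ℝ) + H) ^ (R + 1)) * (Q / X) ^ (2 * R + 2) := by gcongr
        _ = 4 / 3 * (((y : ℝ) + H) * (Q / X) ^ 2) ^ (R + 1) := by
          rw [mul_pow, ← pow_mul]; ring
        _ ≤ 4 / 3 * (N ^ (-(1 / 25) : ℝ)) ^ (R + 1) := by gcongr
        _ ≤ _ := by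
          gcongr
          exact pow_le_of_le_one hNr0.le hNr1 (by omega)
    linarith
  classical
  have hex : ∃ k, Lam n d X m0 k / 2 ≤ N ^ (-(1 / 25) : ℝ) := ⟨_, hend⟩
  set k := Nat.find hex with hk
  have hkP : Lam n d X m0 k / 2 ≤ N ^ (-(1 / 25) : ℝ) := Nat.find_spec hex
  have hkle : k ≤ 2 * R + 2 := Nat.find_min' hex hend
  have hk0 : k ≠ 0 := by
    intro h
    rw [h] at hkP
    linarith
  have hk1 : k ≠ 1 := by
    intro h
    rw [h] at hkP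
    linarith
  obtain ⟨j, hj⟩ : ∃ j, k = j + 2 := ⟨k - 2, by omega⟩
  have hprev : N ^ (-(1 / 25) : ℝ) < Lam n d X m0 (j + 1) / 2 := by
    have := Nat.find_min hex (m := j + 1) (by omega)
    exact not_le.1 this
  have hlow : N ^ (-(3 / 2) : ℝ) ≤ Lam n d X m0 k / 2 := by
    rw [hj, show j + 2 = (j + 1) + 1 by ring, Lam_succ_k hX]
    have h1 : (1 : ℝ) / X ≤ ((m0 : ℝ) + (j + 1 : ℕ)) / X := by
      gcongr
      push_cast
      have : (0 : ℝ) ≤ j := Nat.cast_nonneg j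
      linarith
    calc N ^ (-(3 / 2) : ℝ) = N ^ (-(1 / 25) : ℝ) * (1 / N ^ (3 / 2 - 1 / 25 : ℝ)) := by
          have h2 : 1 / N ^ (3 / 2 - 1 / 25 : ℝ) = N ^ (-(3 / 2 - 1 / 25) : ℝ) := by
            rw [Real.rpow_neg hN0.le]
            exact one_div _
          rw [h2, ← Real.rpow_add hN0]; congr 1; norm_num
      _ ≤ N ^ (-(1 / 25) : ℝ) * (1 / X) := by
          gcongr
          exact hXle.trans s4
      _ ≤ Lam n d X m0 (j + 1) / 2 * (((m0 : ℝ) + (j + 1 : ℕ)) / X) := by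
          have h3 := Lam_nonneg n d X m0 (j + 1)
          have h4 : 0 ≤ Lam n d X m0 (j + 1) / 2 := by positivity
          gcongr
      _ = _ := by ring
  obtain ⟨σ, hσ, hb⟩ := phase_bounds n d X L k hd hX T a ha m0 hm0.1 hm0.2 hm1 hmin (by
      refine le_trans ?_ s1
      gcongr) (by
      refine le_trans ?_ (s2.trans hyX)
      gcongr)
  rw [hj] at hb
  have ht := test_k 8 (by norm_num) N hN1 j L (fun t : ℕ => σ * ph n T a (d * (X + t)))
    (Lam n d X m0 k / 2) hLN hlow (by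
      refine hkP.trans ?_
      apply Real.rpow_le_rpow_of_exponent_le hN1
      have : (0 : ℝ) ≤ 1 / 50 / 2 ^ j := by positivity
      linarith) (by rw [hj]; exact hb)
  have hnorm : ‖∑ t ∈ range L, e (σ * ph n T a (d * (X + t)))‖ =
      ‖∑ t ∈ range L, e (ph n T a (d * (X + t)))‖ := by
    rcases hσ with h | h
    · rw [h]; simp
    · rw [h, ← norm_sum_neg (fun t : ℕ => ph n T a (d * (X + t)))]
      congr 1
      refine sum_congr rfl fun n _ => ?_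
      congr 1; ring
  rw [← hnorm]
  refine ht.trans ?_
  have h6 : N ^ (1 - 1 / 100 / 2 ^ j : ℝ) ≤ N ^ (1 - 1 / 100 / 4 ^ R : ℝ) := by
    apply Real.rpow_le_rpow_of_exponent_le hN1
    have h7 : (2 : ℝ) ^ j ≤ 4 ^ R := by
      calc (2 : ℝ) ^ j ≤ 2 ^ (2 * R) := by
            apply pow_le_pow_right₀ (by norm_num)
            omega
        _ = 4 ^ R := by rw [pow_mul]; norm_num
    have h8 : (1 : ℝ) / 100 / 4 ^ R ≤ 1 / 100 / 2 ^ j := by gcongr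
    linarith
  have h9 : (6 * (8 : ℝ) + 12) = 60 := by norm_num
  rw [h9]
  gcongr

end Pool.Agent.H554.CB
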