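import Pool.Agent.H554.CB.Long
import Pool.Graph.R_seed8.Helper170.Mertens
import Pool.Graph.R_seed8.Helper601.Mertens

set_option autoImplicit false

open Finset Filter Topology

namespace Pool.Agent.H554.CB

/-- choice of the cutoff -/
lemma cutoff (i0 n : ℕ) (hn : 2 ≤ Real.log n) : ∃ I : ℕ, i0 ≤ I ∧ Real.log n ^ 20 ≤ 2 ^ (I + 1) ∧
    3 ≤ 2 ^ I ∧ ((2 : ℝ) ^ I) ≤ 2 ^ (i0 + 2) * Real.log n ^ 20 := by
  set T := Real.log n with hT
  set A := ⌈T ^ 20⌉₊ with hA
  have hT1 : (2 : ℝ) ^ 20 ≤ T ^ 20 := by gcongr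
  have hA1 : T ^ 20 ≤ A := Nat.le_ceil _
  have hA2 : (A : ℝ) < T ^ 20 + 1 := Nat.ceil_lt_add_one (by positivity)
  have hA3 : 1 < A := by
    have : (1 : ℝ) < A := by linarith [show (1 : ℝ) < 2 ^ 20 by norm_num]
    exact_mod_cast this
  have h1 : A ≤ 2 ^ Nat.clog 2 A := Nat.le_pow_clog (by norm_num) A
  have h2 : 2 ^ (Nat.clog 2 A) ≤ 2 * A := by
    have h3 := Nat.pow_pred_clog_lt_self (b := 2) (by norm_num) hA3
    have h4 : 0 < Nat.clog 2 A := Nat.clog_pos (by norm_num) hA3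
    have h5 : 2 ^ (Nat.clog 2 A) = 2 * 2 ^ ((Nat.clog 2 A).pred) := by
      rw [← pow_succ']; congr 1; simp only [Nat.pred_eq_sub_one]; omega
    omega
  refine ⟨i0 + Nat.clog 2 A, by omega, ?_, ?_, ?_⟩
  · have h3 : (A : ℝ) ≤ 2 ^ Nat.clog 2 A := by exact_mod_cast h1
    calc T ^ 20 ≤ 2 ^ Nat.clog 2 A := hA1.trans h3
      _ ≤ 2 ^ (i0 + Nat.clog 2 A + 1) := pow_le_pow_right₀ (by norm_num) (by omega)
  · have h3 : 3 ≤ A := by
      have : (3 : ℝ) ≤ A := by linarith [show (3 : ℝ) < 2 ^ 20 by norm_num]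
      exact_mod_cast this
    calc 3 ≤ 2 ^ Nat.clog 2 A := h3.trans h1
      _ ≤ 2 ^ (i0 + Nat.clog 2 A) := Nat.pow_le_pow_right (by norm_num) (by omega)
  · have h3 : (2 : ℝ) ^ (Nat.clog 2 A) ≤ 2 * A := by exact_mod_cast h2
    calc (2 : ℝ) ^ (i0 + Nat.clog 2 A) = 2 ^ i0 * 2 ^ Nat.clog 2 A := pow_add _ _ _
      _ ≤ 2 ^ i0 * (2 * (2 * T ^ 20)) := by
        gcongr
        have : (1 : ℝ) ≤ T ^ 20 := le_trans (by norm_num) hT1
        linarith
      _ = _ := by rw [pow_add]; ring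

/-- primes with small exponent in the central binomial coefficient -/
abbrev bad (n K p : ℕ) : Prop := p.Prime ∧ ¬ p ^ K ∣ Nat.centralBinom n

lemma logs {n : ℕ} (hn : 16 ≤ n) : 2 ≤ Real.log n ∧ Real.log 2 ≤ Real.log (Real.log n) := by
  have h1 : (2.7 : ℝ) ≤ Real.log n := by
    have h2 : Real.log ((16 : ℕ) : ℝ) ≤ Real.log n :=
      Real.log_le_log (by norm_num) (by exact_mod_cast hn)
    have h3 : Real.log ((16 : ℕ) : ℝ) = 4 * Real.log 2 := by
      rw [show ((16 : ℕ) : ℝ) = 2 ^ 4 by norm_num, Real.log_pow]; norm_num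
    have h4 : (0.69 : ℝ) < Real.log 2 := by have := Real.log_two_gt_d9; linarith
    linarith
  exact ⟨by linarith, Real.log_le_log (by norm_num) (by linarith)⟩

theorem part_two (K : ℕ) : ∃ C : ℝ, ∀ n : ℕ, 16 ≤ n →
    ∑ p ∈ (range n).filter (fun p : ℕ => p.Prime ∧ ¬ p ^ K ∣ Nat.centralBinom n), (1 : ℝ) / p ≤
      Real.log (Real.log (Real.log n)) + C := by
  classical
  obtain ⟨C1, hC1, i0, htail⟩ := tail_bound
  obtain ⟨C2, hC2⟩ := Pool.Agent.Helper601.Mertens.mertens_inv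
  refine ⟨Real.log (i0 + 22) + C2 + 2 ^ K * C1, ?_⟩
  intro n hn
  obtain ⟨hT2, hlT⟩ := logs hn
  obtain ⟨I, hI1, hI2, hI3, hI4⟩ := cutoff i0 n hT2
  have h1 := htail n K I (by omega) hI1 hI2
  have hl2 : (0 : ℝ) < Real.log 2 := Real.log_pos (by norm_num)
  have hl2' : Real.log 2 ≤ 1 := by have := Real.log_two_lt_d9; linarith
  -- small primes
  have hloglog : Real.log (Real.log ((2 ^ I : ℕ) : ℝ)) ≤
      Real.log (i0 + 22) + Real.log (Real.log (Real.log n)) := by
    have hlT0 : 0 < Real.log (Real.log n) := by linarith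
    rw [← Real.log_mul (by positivity) hlT0.ne']
    apply Real.log_le_log
    · apply Real.log_pos
      have : (3 : ℝ) ≤ ((2 ^ I : ℕ) : ℝ) := by exact_mod_cast hI3
      linarith
    · push_cast
      have h3 := Real.log_le_log (by positivity) hI4
      rw [Real.log_mul (by positivity) (by positivity), Real.log_pow 2 (i0 + 2),
        Real.log_pow (Real.log n) 20] at h3
      refine h3.trans ?_
      push_cast
      have h4 : ((i0 : ℝ) + 2) * Real.log 2 ≤ (i0 + 2) * Real.log (Real.log n) := by gcongr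
      linarith
  have hsmall : ∑ p ∈ (Icc 1 (2 ^ I)).filter Nat.Prime, (1 : ℝ) / p ≤
      Real.log (i0 + 22) + Real.log (Real.log (Real.log n)) + C2 := by
    have := (abs_le.1 (hC2 (2 ^ I) hI3)).2
    linarith
  have hsplit : ∑ p ∈ (range n).filter (fun p : ℕ => p.Prime ∧ ¬ p ^ K ∣ Nat.centralBinom n),
      (1 : ℝ) / p ≤ ∑ p ∈ (Icc 1 (2 ^ I)).filter Nat.Prime, (1 : ℝ) / p +
      ∑ p ∈ (range n).filter (fun p : ℕ => (p.Prime ∧ ¬ p ^ K ∣ Nat.centralBinom n) ∧ 2 ^ I ≤ p),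
        (1 : ℝ) / p := by
    rw [← sum_filter_add_sum_filter_not ((range n).filter
      (fun p : ℕ => p.Prime ∧ ¬ p ^ K ∣ Nat.centralBinom n)) (fun p : ℕ => p < 2 ^ I)]
    apply add_le_add
    · apply sum_le_sum_of_subset_of_nonneg
      · intro p hp
        rw [mem_filter, mem_filter] at hp
        rw [mem_filter, mem_Icc]
        exact ⟨⟨hp.1.2.1.one_lt.le, hp.2.le⟩, hp.1.2.1⟩
      · intros; positivity
    · apply sum_le_sum_of_subset_of_nonneg
      · intro p hp
        rw [mem_filter, mem_filter, not_lt] at hp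
        rw [mem_filter]
        exact ⟨hp.1.1, hp.1.2, hp.2⟩
      · intros; positivity
  linarith

theorem part_one (K : ℕ) (δ : ℝ) (hδ : 0 < δ) : ∃ C : ℝ, ∀ n : ℕ,
    ∑ p ∈ (range n).filter (fun p : ℕ => p.Prime ∧ Real.log n ^ δ < p ∧
      ¬ p ^ K ∣ Nat.centralBinom n), (1 : ℝ) / p ≤ C := by
  classical
  obtain ⟨C1, hC1, i0, htail⟩ := tail_bound
  set b : ℝ := max 21 (δ + 1) with hb
  have hb1 : δ < b := lt_of_lt_of_le (by linarith) (le_max_right _ _)
  have hb21 : 21 ≤ b := le_max_left _ _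
  obtain ⟨T0, hT0⟩ := Pool.Agent.Helper170.Mertens.mass hδ hb1 one_pos
  set T1 : ℝ := max (max T0 2) (2 ^ (i0 + 2)) with hT1
  refine ⟨Real.exp T1 + (Real.log (b / δ) + 1) + 2 ^ K * C1, ?_⟩
  have hlog0 : 0 ≤ Real.log (b / δ) := Real.log_nonneg (by rw [le_div_iff₀ hδ]; linarith)
  have hexp := Real.exp_pos T1
  have hKC : 0 ≤ 2 ^ K * C1 := by positivity
  intro n
  rcases lt_or_ge (Real.log n) T1 with hsmall | hbig
  · have h1 : (n : ℝ) ≤ Real.exp T1 := by
      rcases Nat.eq_zero_or_pos n with h | h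
      · subst h; push_cast; exact hexp.le
      · rw [← Real.exp_log (by exact_mod_cast h : (0 : ℝ) < n)]
        exact Real.exp_le_exp.2 hsmall.le
    have h2 : ∑ p ∈ (range n).filter (fun p : ℕ => p.Prime ∧ Real.log n ^ δ < p ∧
        ¬ p ^ K ∣ Nat.centralBinom n), (1 : ℝ) / p ≤ n := by
      calc _ ≤ ∑ p ∈ (range n).filter (fun p : ℕ => p.Prime ∧ Real.log n ^ δ < p ∧
            ¬ p ^ K ∣ Nat.centralBinom n), (1 : ℝ) := by
            refine sum_le_sum fun p hp => ?_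
            rw [mem_filter] at hp
            have h3 : (1 : ℝ) ≤ p := by exact_mod_cast hp.2.1.one_lt.le
            rw [div_le_one (by linarith)]; exact h3
        _ = (((range n).filter (fun p : ℕ => p.Prime ∧ Real.log n ^ δ < p ∧
            ¬ p ^ K ∣ Nat.centralBinom n)).card : ℝ) := by simp
        _ ≤ n := by
            have := card_filter_le (range n) (fun p : ℕ => p.Prime ∧ Real.log n ^ δ < p ∧
              ¬ p ^ K ∣ Nat.centralBinom n)
            rw [card_range] at this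
            exact_mod_cast this
    linarith
  · have hTT0 : T0 ≤ Real.log n := ((le_max_left _ _).trans (le_max_left _ _)).trans hbig
    have hT2 : 2 ≤ Real.log n := ((le_max_right _ _).trans (le_max_left _ _)).trans hbig
    have hTi : (2 : ℝ) ^ (i0 + 2) ≤ Real.log n := (le_max_right _ _).trans hbig
    have hn2 : 2 ≤ n := by
      by_contra h
      have : n = 0 ∨ n = 1 := by omega
      rcases this with h | h <;> rw [h] at hT2 <;> norm_num at hT2
    obtain ⟨I, hI1, hI2, hI3, hI4⟩ := cutoff i0 n hT2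
    have h1 := htail n K I hn2 hI1 hI2
    have h2 := hT0 (Real.log n) hTT0
    have hI5 : ((2 : ℝ) ^ I) ≤ Real.log n ^ b := by
      calc ((2 : ℝ) ^ I) ≤ 2 ^ (i0 + 2) * Real.log n ^ 20 := hI4
        _ ≤ Real.log n * Real.log n ^ 20 := by gcongr
        _ = Real.log n ^ (21 : ℕ) := by ring
        _ = Real.log n ^ (21 : ℝ) := by rw [← Real.rpow_natCast]; norm_num
        _ ≤ Real.log n ^ b := Real.rpow_le_rpow_of_exponent_le (by linarith) hb21
    have hsplit : ∑ p ∈ (range n).filter (fun p : ℕ => p.Prime ∧ Real.log n ^ δ < p ∧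
          ¬ p ^ K ∣ Nat.centralBinom n), (1 : ℝ) / p ≤
        ∑ p ∈ (Icc 1 ⌊Real.log n ^ b⌋₊).filter (fun p : ℕ => p.Prime ∧ Real.log n ^ δ < (p : ℝ)),
          (1 : ℝ) / p +
        ∑ p ∈ (range n).filter (fun p : ℕ => (p.Prime ∧ ¬ p ^ K ∣ Nat.centralBinom n) ∧ 2 ^ I ≤ p),
          (1 : ℝ) / p := by
      rw [← sum_filter_add_sum_filter_not ((range n).filter
        (fun p : ℕ => p.Prime ∧ Real.log n ^ δ < p ∧ ¬ p ^ K ∣ Nat.centralBinom n))
        (fun p : ℕ => p < 2 ^ I)]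
      apply add_le_add
      · apply sum_le_sum_of_subset_of_nonneg
        · intro p hp
          rw [mem_filter, mem_filter] at hp
          rw [mem_filter, mem_Icc]
          refine ⟨⟨hp.1.2.1.one_lt.le, ?_⟩, hp.1.2.1, hp.1.2.2.1⟩
          apply Nat.le_floor
          have : (p : ℝ) ≤ 2 ^ I := by exact_mod_cast hp.2.le
          linarith
        · intros; positivity
      · apply sum_le_sum_of_subset_of_nonneg
        · intro p hp
          rw [mem_filter, mem_filter, not_lt] at hp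
          rw [mem_filter]
          exact ⟨hp.1.1, ⟨hp.1.2.1, hp.1.2.2.2⟩, hp.2⟩
        · intros; positivity
    linarith

theorem part_three (K : ℕ) : ∃ C : ℝ, ∀ n : ℕ, 16 ≤ n →
    Real.log (Real.log n) - Real.log (Real.log (Real.log n)) - C ≤
    ∑ p ∈ (range n).filter (fun p : ℕ => p.Prime ∧ p ^ K ∣ Nat.centralBinom n), (1 : ℝ) / p := by
  classical
  obtain ⟨C1, hC1⟩ := part_two K
  obtain ⟨C2, hC2⟩ := Pool.Agent.Helper601.Mertens.mertens_inv
  refine ⟨C1 + C2 + 1, ?_⟩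
  intro n hn
  have h1 := hC1 n hn
  have h2 := (abs_le.1 (hC2 n (by omega))).1
  have h3 : ∑ p ∈ (Icc 1 n).filter Nat.Prime, (1 : ℝ) / p ≤
      ∑ p ∈ (range n).filter Nat.Prime, (1 : ℝ) / p + 1 := by
    have h4 : (Icc 1 n).filter Nat.Prime ⊆ insert n ((range n).filter Nat.Prime) := by
      intro p hp
      rw [mem_filter, mem_Icc] at hp
      rw [mem_insert, mem_filter, mem_range]
      rcases Nat.lt_or_ge p n with h | h
      · exact Or.inr ⟨h, hp.2⟩
      · exact Or.inl (le_antisymm hp.1.2 h)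
    refine (sum_le_sum_of_subset_of_nonneg h4 (fun _ _ _ => by positivity)).trans ?_
    have h5 : n ∉ (range n).filter Nat.Prime := by
      rw [mem_filter, mem_range]; intro h; omega
    rw [sum_insert h5]
    have h6 : (1 : ℝ) / n ≤ 1 := by
      rw [div_le_one (by exact_mod_cast (by omega : 0 < n))]
      exact_mod_cast (by omega : 1 ≤ n)
    linarith
  have h4 : ∑ p ∈ (range n).filter Nat.Prime, (1 : ℝ) / p =
      ∑ p ∈ (range n).filter (fun p : ℕ => p.Prime ∧ p ^ K ∣ Nat.centralBinom n), (1 : ℝ) / p +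
      ∑ p ∈ (range n).filter (fun p : ℕ => p.Prime ∧ ¬ p ^ K ∣ Nat.centralBinom n), (1 : ℝ) / p := by
    rw [← sum_filter_add_sum_filter_not ((range n).filter Nat.Prime)
      (fun p : ℕ => p ^ K ∣ Nat.centralBinom n), filter_filter, filter_filter]
  linarith

/-- a Mertens type bound for the primes between `y` and `N` -/
lemma mertens_between : ∃ C : ℝ, 0 ≤ C ∧ ∀ (N : ℕ) (y : ℝ), 3 ≤ N → 2 ≤ y → y ≤ N →
    ∑ p ∈ (Icc 1 N).filter (fun p : ℕ => p.Prime ∧ y ≤ p), (1 : ℝ) / p ≤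
      Real.log (Real.log N) - Real.log (Real.log y) + C := by
  classical
  obtain ⟨C2, hC2⟩ := Pool.Agent.Helper601.Mertens.mertens_inv
  have hC20 : 0 ≤ C2 := (abs_nonneg _).trans (hC2 3 le_rfl)
  refine ⟨2 * C2 + 2, by positivity, ?_⟩
  intro N y hN hy hyN
  have hl2 : (0.69 : ℝ) < Real.log 2 := by have := Real.log_two_gt_d9; linarith
  have hl2' : Real.log 2 < 0.7 := by have := Real.log_two_lt_d9; linarith
  have h1 := (abs_le.1 (hC2 N hN)).2
  rcases lt_or_ge y 4 with h4 | h4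
  · have h2 : Real.log (Real.log y) ≤ 1 := by
      have h3 : Real.log y ≤ 1.4 := by
        have h5 : Real.log y ≤ Real.log 4 := Real.log_le_log (by linarith) h4.le
        have h6 : Real.log 4 = 2 * Real.log 2 := by
          rw [show (4 : ℝ) = 2 ^ 2 by norm_num, Real.log_pow]; norm_num
        linarith
      have h4' : 0 < Real.log y := Real.log_pos (by linarith)
      have := Real.log_le_sub_one_of_pos h4'
      linarith
    have h3 : ∑ p ∈ (Icc 1 N).filter (fun p : ℕ => p.Prime ∧ y ≤ p), (1 : ℝ) / p ≤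
        ∑ p ∈ (Icc 1 N).filter Nat.Prime, (1 : ℝ) / p := by
      apply sum_le_sum_of_subset_of_nonneg
      · intro p hp
        rw [mem_filter] at hp ⊢
        exact ⟨hp.1, hp.2.1⟩
      · intros; positivity
    linarith
  · have hM3 : 3 ≤ ⌊y⌋₊ := Nat.le_floor (by push_cast; linarith)
    have h2 := (abs_le.1 (hC2 ⌊y⌋₊ hM3)).1
    have hfl : y - 1 < ⌊y⌋₊ := Nat.sub_one_lt_floor y
    have hly : 0 < Real.log y := Real.log_pos (by linarith)
    have h3 : Real.log (Real.log y) - 1 ≤ Real.log (Real.log (⌊y⌋₊ : ℝ)) := by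
      have h5 : Real.log y / 2 ≤ Real.log (⌊y⌋₊ : ℝ) := by
        rw [← Real.log_sqrt (by linarith)]
        apply Real.log_le_log (Real.sqrt_pos.2 (by linarith))
        have h6 : Real.sqrt y ≤ y / 2 := by
          rw [Real.sqrt_le_left (by linarith)]
          nlinarith
        linarith
      have h7 : Real.log (Real.log y / 2) ≤ Real.log (Real.log (⌊y⌋₊ : ℝ)) :=
        Real.log_le_log (by positivity) h5
      rw [Real.log_div hly.ne' (by norm_num)] at h7
      linarith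
    have h4' : ∑ p ∈ (Icc 1 N).filter (fun p : ℕ => p.Prime ∧ y ≤ p), (1 : ℝ) / p +
        ∑ p ∈ (Icc 1 ⌊y⌋₊).filter Nat.Prime, (1 : ℝ) / p ≤
        ∑ p ∈ (Icc 1 N).filter Nat.Prime, (1 : ℝ) / p + 1 := by
      set A := (Icc 1 N).filter (fun p : ℕ => p.Prime ∧ y ≤ p)
      set B := (Icc 1 ⌊y⌋₊).filter Nat.Prime
      have h5 : ∑ p ∈ A ∪ B, (1 : ℝ) / p + ∑ p ∈ A ∩ B, (1 : ℝ) / p =
          ∑ p ∈ A, (1 : ℝ) / p + ∑ p ∈ B, (1 : ℝ) / p := sum_union_inter
      have h6 : ∑ p ∈ A ∪ B, (1 : ℝ) / p ≤ ∑ p ∈ (Icc 1 N).filter Nat.Prime, (1 : ℝ) / p := by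
        apply sum_le_sum_of_subset_of_nonneg
        · intro p hp
          rw [mem_union, mem_filter, mem_filter, mem_Icc, mem_Icc] at hp
          rw [mem_filter, mem_Icc]
          rcases hp with h | h
          · exact ⟨h.1, h.2.1⟩
          · refine ⟨⟨h.1.1, h.1.2.trans ?_⟩, h.2⟩
            have : ((⌊y⌋₊ : ℕ) : ℝ) ≤ N := (Nat.floor_le (by linarith)).trans hyN
            exact_mod_cast this
        · intros; positivity
      have h7 : ∑ p ∈ A ∩ B, (1 : ℝ) / p ≤ 1 := by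
        have h8 : A ∩ B ⊆ {⌊y⌋₊} := by
          intro p hp
          rw [mem_inter, mem_filter, mem_filter, mem_Icc, mem_Icc] at hp
          rw [mem_singleton]
          apply le_antisymm hp.2.1.2
          have : ((⌊y⌋₊ : ℕ) : ℝ) ≤ p := (Nat.floor_le (by linarith)).trans hp.1.2.2
          exact_mod_cast this
        refine (sum_le_sum_of_subset_of_nonneg h8 (fun _ _ _ => by positivity)).trans ?_
        rw [sum_singleton]
        have h9 : (1 : ℝ) ≤ (⌊y⌋₊ : ℝ) := by exact_mod_cast (by omega : 1 ≤ ⌊y⌋₊)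
        rw [div_le_one (by linarith)]
        exact h9
      linarith
    linarith

/-- the uniform bound -/
theorem uniform (K : ℕ) : ∃ C : ℝ, ∀ n : ℕ, 16 ≤ n → ∀ y : ℝ, 2 ≤ y →
    ∑ p ∈ (range n).filter (fun p : ℕ => p.Prime ∧ y ≤ p ∧ ¬ p ^ K ∣ Nat.centralBinom n),
      (1 : ℝ) / p ≤ max 0 (Real.log (Real.log (Real.log n)) - Real.log (Real.log y)) + C := by
  classical
  obtain ⟨C1, hC1, i0, htail⟩ := tail_bound
  obtain ⟨C2, hC20, hC2⟩ := mertens_between
  have hl2 : (0 : ℝ) < Real.log 2 := Real.log_pos (by norm_num)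
  have hl2' : Real.log 2 ≤ 1 := by have := Real.log_two_lt_d9; linarith
  refine ⟨Real.log (i0 + 22) + C2 + 2 ^ K * C1, ?_⟩
  intro n hn y hy
  obtain ⟨hT2, hlT⟩ := logs hn
  obtain ⟨I, hI1, hI2, hI3, hI4⟩ := cutoff i0 n hT2
  have h1 := htail n K I (by omega) hI1 hI2
  have hlog22 : 0 ≤ Real.log ((i0 : ℝ) + 22) := by
    apply Real.log_nonneg
    have : (0 : ℝ) ≤ i0 := Nat.cast_nonneg i0
    linarith
  have hloglog : Real.log (Real.log ((2 ^ I : ℕ) : ℝ)) ≤
      Real.log (i0 + 22) + Real.log (Real.log (Real.log n)) := by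
    have hlT0 : 0 < Real.log (Real.log n) := by linarith
    rw [← Real.log_mul (by positivity) hlT0.ne']
    apply Real.log_le_log
    · apply Real.log_pos
      have : (3 : ℝ) ≤ ((2 ^ I : ℕ) : ℝ) := by exact_mod_cast hI3
      linarith
    · push_cast
      have h3 := Real.log_le_log (by positivity) hI4
      rw [Real.log_mul (by positivity) (by positivity), Real.log_pow 2 (i0 + 2),
        Real.log_pow (Real.log n) 20] at h3
      refine h3.trans ?_
      push_cast
      have h4 : ((i0 : ℝ) + 2) * Real.log 2 ≤ (i0 + 2) * Real.log (Real.log n) := by gcongr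
      linarith
  have hsmall : ∑ p ∈ (Icc 1 (2 ^ I)).filter (fun p : ℕ => p.Prime ∧ y ≤ p), (1 : ℝ) / p ≤
      max 0 (Real.log (Real.log (Real.log n)) - Real.log (Real.log y)) +
        (Real.log (i0 + 22) + C2) := by
    have hmax0 := le_max_left 0 (Real.log (Real.log (Real.log n)) - Real.log (Real.log y))
    rcases le_or_gt y ((2 ^ I : ℕ) : ℝ) with h | h
    · have h2 := hC2 (2 ^ I) y hI3 hy h
      have hmax := le_max_right 0 (Real.log (Real.log (Real.log n)) - Real.log (Real.log y))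
      linarith
    · rw [filter_false_of_mem, sum_empty]
      · positivity
      · intro p hp hcon
        rw [mem_Icc] at hp
        have : (p : ℝ) ≤ ((2 ^ I : ℕ) : ℝ) := by exact_mod_cast hp.2
        linarith [hcon.2]
  have hsplit : ∑ p ∈ (range n).filter
      (fun p : ℕ => p.Prime ∧ y ≤ p ∧ ¬ p ^ K ∣ Nat.centralBinom n),
      (1 : ℝ) / p ≤ ∑ p ∈ (Icc 1 (2 ^ I)).filter (fun p : ℕ => p.Prime ∧ y ≤ p), (1 : ℝ) / p +
      ∑ p ∈ (range n).filter (fun p : ℕ => (p.Prime ∧ ¬ p ^ K ∣ Nat.centralBinom n) ∧ 2 ^ I ≤ p),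
        (1 : ℝ) / p := by
    rw [← sum_filter_add_sum_filter_not ((range n).filter
      (fun p : ℕ => p.Prime ∧ y ≤ p ∧ ¬ p ^ K ∣ Nat.centralBinom n)) (fun p : ℕ => p < 2 ^ I)]
    apply add_le_add
    · apply sum_le_sum_of_subset_of_nonneg
      · intro p hp
        rw [mem_filter, mem_filter] at hp
        rw [mem_filter, mem_Icc]
        exact ⟨⟨hp.1.2.1.one_lt.le, hp.2.le⟩, hp.1.2.1, hp.1.2.2.1⟩
      · intros; positivity
    · apply sum_le_sum_of_subset_of_nonneg
      · intro p hp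
        rw [mem_filter, mem_filter, not_lt] at hp
        rw [mem_filter]
        exact ⟨hp.1.1, ⟨hp.1.2.1, hp.1.2.2.2⟩, hp.2⟩
      · intros; positivity
  linarith

end Pool.Agent.H554.CB
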