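import Pool.Agent.H554.CB.Block
import Pool.Graph.R_seed8.Helper170.Kummer

set_option autoImplicit false

open Finset Filter Topology

namespace Pool.Agent.H554.CB

/-- primes whose `K`-th power does not divide the central binomial coefficient have large weight -/
lemma wt_ge {n p K : ℕ} (hp : p.Prime) (hK : ¬ p ^ K ∣ Nat.centralBinom n) (T : Finset ℕ)
    (hT : ∀ m ∈ T, 1 ≤ m) : 1 ≤ 2 ^ K * wt n T p := by
  classical
  set S := T.filter (fun m => p ^ m ≤ 2 * (n % p ^ m)) with hS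
  have h1 : S.card < K := by
    have h2 := Pool.Agent.Helper170.Kummer.card_le (m := n) hp S (by
      intro m hm
      rw [hS, mem_filter] at hm
      exact ⟨hT m hm.1, hm.2⟩)
    have h3 : (Nat.choose (n + n) n).factorization p < K := by
      by_contra h
      rw [not_lt] at h
      apply hK
      rw [Nat.centralBinom_eq_two_mul_choose, two_mul]
      exact (hp.pow_dvd_iff_le_factorization (Nat.choose_pos (by omega)).ne').2 h
    omega
  have h2 : (1 / 2 : ℝ) ^ S.card ≤ wt n T p := by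
    unfold wt
    rw [← prod_filter_mul_prod_filter_not T (fun m => p ^ m ≤ 2 * (n % p ^ m))]
    have h3 : (1 / 2 : ℝ) ^ S.card ≤ ∏ m ∈ T.filter (fun m => p ^ m ≤ 2 * (n % p ^ m)),
        psi ((n : ℝ) / (p : ℝ) ^ m) := by
      rw [← prod_const]
      exact prod_le_prod (fun _ _ => by norm_num) (fun m _ => psi_ge_half _)
    have h4 : (1 : ℝ) ≤ ∏ m ∈ T.filter (fun m => ¬ p ^ m ≤ 2 * (n % p ^ m)),
        psi ((n : ℝ) / (p : ℝ) ^ m) := by
      have : (∏ _m ∈ T.filter (fun m => ¬ p ^ m ≤ 2 * (n % p ^ m)), (1 : ℝ)) ≤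
          ∏ m ∈ T.filter (fun m => ¬ p ^ m ≤ 2 * (n % p ^ m)), psi ((n : ℝ) / (p : ℝ) ^ m) := by
        refine prod_le_prod (fun _ _ => by norm_num) (fun m hm => ?_)
        rw [mem_filter, not_le] at hm
        apply psi_ge_one
        have hpm : 0 < p ^ m := pow_pos hp.pos m
        have e1 : (n : ℝ) / (p : ℝ) ^ m = (n : ℝ) / ((p ^ m : ℕ) : ℝ) := by push_cast; rfl
        rw [e1, Int.fract_div_natCast_eq_div_natCast_mod, div_le_div_iff₀ (by exact_mod_cast hpm)
          (by norm_num)]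
        have h5 : n % p ^ m * 2 ≤ 1 * p ^ m := by omega
        exact_mod_cast h5
      rwa [prod_const_one] at this
    calc (1 / 2 : ℝ) ^ S.card = (1 / 2 : ℝ) ^ S.card * 1 := (mul_one _).symm
      _ ≤ _ := by
        apply mul_le_mul h3 h4 (by norm_num)
        exact prod_nonneg fun _ _ => (psi_pos _).le
  calc (1 : ℝ) = 2 ^ K * (1 / 2) ^ K := by rw [← mul_pow]; norm_num
    _ ≤ 2 ^ K * (1 / 2) ^ S.card := by
      gcongr ?_ * ?_
      exact pow_le_pow_of_le_one (by norm_num) (by norm_num) h1.le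
    _ ≤ _ := by gcongr

lemma pow78 (j : ℕ) : (7 / 8 : ℝ) ^ (j - 1) ≤ 8 / (j + 1) := by
  rcases Nat.eq_zero_or_pos j with h | h
  · subst h; norm_num
  · obtain ⟨m, rfl⟩ : ∃ m, j = m + 1 := ⟨j - 1, by omega⟩
    rw [Nat.add_sub_cancel]
    have h1 := one_add_mul_le_pow (a := (1 / 7 : ℝ)) (by norm_num) m
    have h2 : (7 / 8 : ℝ) ^ m * (1 + 1 / 7) ^ m = 1 := by rw [← mul_pow]; norm_num
    rw [le_div_iff₀ (by positivity)]
    have h3 : (0 : ℝ) < (7 / 8) ^ m := by positivity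
    push_cast
    have h4 : (m : ℝ) + 1 + 1 ≤ 8 * (1 + 1 / 7) ^ m := by
      have : (0 : ℝ) ≤ m := Nat.cast_nonneg m
      linarith
    calc (7 / 8 : ℝ) ^ m * ((m : ℝ) + 1 + 1) ≤ (7 / 8 : ℝ) ^ m * (8 * (1 + 1 / 7) ^ m) := by gcongr
      _ = 8 * ((7 / 8 : ℝ) ^ m * (1 + 1 / 7) ^ m) := by ring
      _ = 8 := by rw [h2, mul_one]

lemma pow_card (R J : ℕ) : (7 / 8 : ℝ) ^ (TT R J).card ≤ (7 / 8) ^ R + 8 / (J + 1) := by
  have h1 : (TT R J).card = min R (J - 1) := by
    unfold TT; rw [Nat.card_Ico]; omega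
  rw [h1]
  have h2 := pow78 J
  have h3 : (0 : ℝ) < (7 / 8) ^ R := by positivity
  rcases le_total R (J - 1) with h | h
  · rw [min_eq_left h]
    have : (0 : ℝ) ≤ 8 / (J + 1) := by positivity
    linarith
  · rw [min_eq_right h]; linarith

lemma sum_blocks (a H : ℕ) (g : ℕ → ℝ) (M : ℕ) :
    ∑ x ∈ Ico a (a + M * H), g x = ∑ s ∈ range M, ∑ x ∈ Ico (a + s * H) (a + s * H + H), g x := by
  induction M with
  | zero => simp
  | succ M ih =>
    rw [sum_range_succ, ← ih, sum_Ico_consecutive _ (by omega) (by omega)]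
    congr 2
    ring

lemma sum_biUnion_le' (s : Finset ℕ) (t : ℕ → Finset ℕ) (f : ℕ → ℝ) (hf : ∀ x, 0 ≤ f x) :
    ∑ x ∈ s.biUnion t, f x ≤ ∑ i ∈ s, ∑ x ∈ t i, f x := by
  classical
  induction s using Finset.induction_on with
  | empty => simp
  | insert a s ha ih =>
    rw [biUnion_insert, sum_insert ha]
    have h1 := sum_union_inter (s₁ := t a) (s₂ := s.biUnion t) (f := f)
    have h2 : 0 ≤ ∑ x ∈ t a ∩ s.biUnion t, f x := sum_nonneg fun x _ => hf x
    linarith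

/-- the primes in a dyadic interval -/
theorem long_block {n u i K : ℕ} (hu : 7 ≤ u) (hi1 : 32 * u ≤ i) (hi2 : i < 32 * u + 32)
    (hs : 120 * (i : ℝ) ^ 9 * (2 : ℝ) ^ (-((i : ℝ) ^ (3 / 4 : ℝ) / 200)) ≤ 1)
    (hn : 2 ≤ n) (hlog : Real.log n ^ 20 ≤ 2 ^ (i + 1)) :
    ∑ p ∈ (Ico (2 ^ i) (2 ^ (i + 1))).filter
        (fun p : ℕ => p.Prime ∧ ¬ p ^ K ∣ Nat.centralBinom n), (1 : ℝ) / p ≤
      2 ^ K * (400 * ((7 / 8) ^ (Nat.log 256 i) + 8 * (i + 1) / Real.log n) / i + 2 / i ^ 2) := by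
  classical
  set H := 2 ^ (i - 4 * u) with hH
  set R := Nat.log 256 i with hR
  have hn1 : (1 : ℝ) < n := by exact_mod_cast hn
  have hlogn : 0 < Real.log n := Real.log_pos hn1
  have hi0 : (1 : ℝ) ≤ i := by exact_mod_cast (by omega : 1 ≤ i)
  have hHi : 2 ^ (4 * u) * H = 2 ^ i := by rw [hH, ← pow_add]; congr 1; omega
  set Q : ℝ := 400 * ((7 / 8) ^ R + 8 * (i + 1) / Real.log n) / i + 2 / i ^ 2 with hQ
  have hmain : ∑ p ∈ (Ico (2 ^ i) (2 ^ (i + 1))).filter
      (fun p : ℕ => p.Prime ∧ ¬ p ^ K ∣ Nat.centralBinom n), (1 : ℝ) ≤ 2 ^ K * (2 ^ i * Q) := by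
    rw [sum_filter, show 2 ^ (i + 1) = 2 ^ i + 2 ^ (4 * u) * H by rw [hHi]; ring,
      sum_blocks (2 ^ i) H]
    have hblk : ∀ s ∈ range (2 ^ (4 * u)),
        ∑ x ∈ Ico (2 ^ i + s * H) (2 ^ i + s * H + H),
          (if x.Prime ∧ ¬ x ^ K ∣ Nat.centralBinom n then (1 : ℝ) else 0) ≤ 2 ^ K * (H * Q) := by
      intro s hs'
      rw [mem_range] at hs'
      set y := 2 ^ i + s * H with hy
      have hyH : y + H ≤ 2 ^ (i + 1) := by
        have h1 : (s + 1) * H ≤ 2 ^ (4 * u) * H := Nat.mul_le_mul_right _ hs'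
        rw [hHi] at h1
        rw [pow_succ, hy]
        have : (s + 1) * H = s * H + H := by ring
        omega
      set J := Nat.log (y + H) n with hJ
      have hsb := short_block hu hi1 hi2 hs hH (by omega : 2 ^ i ≤ y) hyH (by omega : n ≠ 0) hJ hlog hR
      have hTm : ∀ m ∈ TT R J, 1 ≤ m := by
        intro m hm
        unfold TT at hm; rw [mem_Ico] at hm
        omega
      have h1 : ∑ x ∈ Ico y (y + H), (if x.Prime ∧ ¬ x ^ K ∣ Nat.centralBinom n then (1 : ℝ) else 0) ≤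
          ∑ x ∈ (Ico y (y + H)).filter Nat.Prime, 2 ^ K * wt n (TT R J) x := by
        rw [sum_filter]
        refine sum_le_sum fun x _ => ?_
        by_cases hx : x.Prime
        · rw [if_pos hx]
          split_ifs with h2
          · exact wt_ge hx h2.2 _ hTm
          · have := wt_nonneg n (TT R J) x
            positivity
        · rw [if_neg hx, if_neg (fun h => hx h.1)]
      refine h1.trans ?_
      rw [← mul_sum]
      have h2 : (H : ℝ) * (400 * (7 / 8) ^ (TT R J).card / i + 2 / i ^ 2) ≤ H * Q := by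
        have h3 : (7 / 8 : ℝ) ^ (TT R J).card ≤ (7 / 8) ^ R + 8 * (i + 1) / Real.log n := by
          refine (pow_card R J).trans ?_
          have h4 : Real.log n ≤ (i + 1) * (J + 1) := by
            have hbase : 1 < y + H := by
              have : 1 < 2 ^ i := Nat.one_lt_two_pow (by omega)
              exact lt_of_lt_of_le this ((Nat.le_add_right _ _).trans (Nat.le_add_right _ _))
            have h5 : n < (y + H) ^ (J + 1) := Nat.lt_pow_succ_log_self hbase _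
            have h6 : (n : ℝ) ≤ (2 : ℝ) ^ ((i + 1) * (J + 1)) := by
              have : n ≤ 2 ^ ((i + 1) * (J + 1)) := by
                rw [pow_mul]
                exact h5.le.trans (Nat.pow_le_pow_left hyH _)
              exact_mod_cast this
            have h7 := Real.log_le_log (by linarith) h6
            rw [Real.log_pow] at h7
            have h8 : Real.log 2 ≤ 1 := by have := Real.log_two_lt_d9; linarith
            push_cast at h7
            calc Real.log n ≤ ((i : ℝ) + 1) * (J + 1) * Real.log 2 := h7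
              _ ≤ ((i : ℝ) + 1) * (J + 1) * 1 := by gcongr
              _ = _ := by ring
          have h9 : 8 / ((J : ℝ) + 1) ≤ 8 * (i + 1) / Real.log n := by
            rw [div_le_div_iff₀ (by positivity) hlogn]
            nlinarith
          linarith
        rw [hQ]
        gcongr
      calc 2 ^ K * ∑ x ∈ (Ico y (y + H)).filter Nat.Prime, wt n (TT R J) x
          ≤ 2 ^ K * (H * (400 * (7 / 8) ^ (TT R J).card / i + 2 / i ^ 2)) := by gcongr
        _ ≤ _ := by gcongr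
    refine (sum_le_sum hblk).trans ?_
    rw [sum_const, card_range, nsmul_eq_mul]
    have h1 : ((2 ^ (4 * u) : ℕ) : ℝ) * (H : ℝ) = 2 ^ i := by exact_mod_cast hHi
    apply le_of_eq
    calc ((2 ^ (4 * u) : ℕ) : ℝ) * (2 ^ K * (H * Q)) = 2 ^ K * ((((2 ^ (4 * u) : ℕ) : ℝ) * H) * Q) := by ring
      _ = _ := by rw [h1]
  have h1 : ∑ p ∈ (Ico (2 ^ i) (2 ^ (i + 1))).filter
        (fun p : ℕ => p.Prime ∧ ¬ p ^ K ∣ Nat.centralBinom n), (1 : ℝ) / p ≤
      ∑ p ∈ (Ico (2 ^ i) (2 ^ (i + 1))).filter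
        (fun p : ℕ => p.Prime ∧ ¬ p ^ K ∣ Nat.centralBinom n), 1 / 2 ^ i * (1 : ℝ) := by
    refine sum_le_sum fun p hp => ?_
    rw [mem_filter, mem_Ico] at hp
    have h2 : (2 : ℝ) ^ i ≤ p := by exact_mod_cast hp.1.1
    rw [mul_one]
    gcongr
  refine h1.trans ?_
  rw [← mul_sum]
  calc 1 / (2 : ℝ) ^ i * ∑ p ∈ (Ico (2 ^ i) (2 ^ (i + 1))).filter
        (fun p : ℕ => p.Prime ∧ ¬ p ^ K ∣ Nat.centralBinom n), (1 : ℝ)
      ≤ 1 / (2 : ℝ) ^ i * (2 ^ K * (2 ^ i * Q)) := by gcongr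
    _ = _ := by field_simp

lemma summable_main : Summable (fun i : ℕ => (7 / 8 : ℝ) ^ (Nat.log 256 i) / i) := by
  set c : ℝ := Real.log (8 / 7) / Real.log 256 with hc
  have hc0 : 0 < c := by
    have h1 : 0 < Real.log (8 / 7) := Real.log_pos (by norm_num)
    have h2 : 0 < Real.log 256 := Real.log_pos (by norm_num)
    positivity
  have hsum : Summable (fun i : ℕ => 8 / 7 * (1 / (i : ℝ) ^ (1 + c))) :=
    (Real.summable_one_div_nat_rpow.2 (by linarith)).mul_left _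
  refine Summable.of_nonneg_of_le (fun i => by positivity) (fun i => ?_) hsum
  rcases Nat.eq_zero_or_pos i with h | h
  · subst h; simp; positivity
  have hi : (0 : ℝ) < i := by exact_mod_cast h
  set R := Nat.log 256 i with hR
  have h1 : (i : ℝ) ≤ 256 ^ (R + 1) := by
    have : i < 256 ^ (R + 1) := Nat.lt_pow_succ_log_self (by norm_num) _
    exact_mod_cast this.le
  have h2 : (256 : ℝ) ^ c = 8 / 7 := by
    rw [Real.rpow_def_of_pos (by norm_num), hc, mul_div_cancel₀, Real.exp_log (by norm_num)]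
    exact (Real.log_pos (by norm_num)).ne'
  have h3 : (i : ℝ) ^ c ≤ (8 / 7) ^ (R + 1) := by
    calc (i : ℝ) ^ c ≤ ((256 : ℝ) ^ (R + 1)) ^ c := by gcongr
      _ = ((256 : ℝ) ^ c) ^ (R + 1) := by
        rw [← Real.rpow_natCast, ← Real.rpow_natCast, ← Real.rpow_mul (by norm_num),
          ← Real.rpow_mul (by norm_num), mul_comm]
      _ = _ := by rw [h2]
  have h4 : (7 / 8 : ℝ) ^ R * (i : ℝ) ^ c ≤ 8 / 7 := by
    calc (7 / 8 : ℝ) ^ R * (i : ℝ) ^ c ≤ (7 / 8 : ℝ) ^ R * (8 / 7) ^ (R + 1) := by gcongr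
      _ = ((7 / 8 : ℝ) * (8 / 7)) ^ R * (8 / 7) := by rw [mul_pow]; ring
      _ = 8 / 7 := by norm_num
  rw [Real.rpow_add hi, Real.rpow_one, mul_one_div, div_le_div_iff₀ hi (by positivity)]
  calc (7 / 8 : ℝ) ^ R * (i * (i : ℝ) ^ c) = i * ((7 / 8 : ℝ) ^ R * (i : ℝ) ^ c) := by ring
    _ ≤ i * (8 / 7) := by gcongr
    _ = _ := by ring

/-- the tail of the sum is bounded -/
theorem tail_bound : ∃ C : ℝ, 0 ≤ C ∧ ∃ i0 : ℕ, ∀ (n K I : ℕ), 2 ≤ n → i0 ≤ I →
    Real.log n ^ 20 ≤ 2 ^ (I + 1) →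
    ∑ p ∈ (range n).filter (fun p : ℕ => (p.Prime ∧ ¬ p ^ K ∣ Nat.centralBinom n) ∧ 2 ^ I ≤ p),
      (1 : ℝ) / p ≤ 2 ^ K * C := by
  classical
  obtain ⟨i1, hi1⟩ := eventually_atTop.1 saving
  set S1 := ∑' i : ℕ, (7 / 8 : ℝ) ^ (Nat.log 256 i) / i with hS1
  set S2 := ∑' i : ℕ, (1 : ℝ) / (i : ℝ) ^ 2 with hS2
  have hsum2 : Summable (fun i : ℕ => (1 : ℝ) / (i : ℝ) ^ 2) :=
    Real.summable_one_div_nat_pow.2 (by norm_num)
  have hS10 : 0 ≤ S1 := tsum_nonneg fun _ => by positivity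
  have hS20 : 0 ≤ S2 := tsum_nonneg fun _ => by positivity
  refine ⟨400 * S1 + 2 * S2 + 19200, by positivity, max i1 224, ?_⟩
  intro n K I hn hI hlog
  have hI1 : i1 ≤ I := (le_max_left _ _).trans hI
  have hI2 : 224 ≤ I := (le_max_right _ _).trans hI
  have hn1 : (1 : ℝ) < n := by exact_mod_cast hn
  have hlogn : 0 < Real.log n := Real.log_pos hn1
  set Bn := Nat.log 2 n + 1 with hBn
  have hnB : n < 2 ^ Bn := Nat.lt_pow_succ_log_self (by norm_num) _
  have hBn2 : (Bn : ℝ) ≤ 3 * Real.log n + 1 - Real.log n := by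
    have h1 : 2 ^ (Nat.log 2 n) ≤ n := Nat.pow_log_le_self _ (by omega)
    have h2 : (2 : ℝ) ^ (Nat.log 2 n) ≤ n := by exact_mod_cast h1
    have h3 := Real.log_le_log (by positivity) h2
    rw [Real.log_pow] at h3
    have h4 : (0.69 : ℝ) < Real.log 2 := by have := Real.log_two_gt_d9; linarith
    rw [hBn]
    push_cast
    have h5 : (0 : ℝ) ≤ (Nat.log 2 n : ℕ) := Nat.cast_nonneg _
    nlinarith
  have hlogn2 : (0.69 : ℝ) < Real.log n := by
    have h4 : (0.69 : ℝ) < Real.log 2 := by have := Real.log_two_gt_d9; linarith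
    have h5 : Real.log 2 ≤ Real.log n := Real.log_le_log (by norm_num) (by exact_mod_cast hn)
    linarith
  have hcover : (range n).filter (fun p : ℕ => (p.Prime ∧ ¬ p ^ K ∣ Nat.centralBinom n) ∧ 2 ^ I ≤ p) ⊆
      (Ico I Bn).biUnion (fun i => (Ico (2 ^ i) (2 ^ (i + 1))).filter
        (fun p : ℕ => p.Prime ∧ ¬ p ^ K ∣ Nat.centralBinom n)) := by
    intro p hp
    rw [mem_filter, mem_range] at hp
    obtain ⟨h1, h2, h3⟩ := hp
    have hp0 : p ≠ 0 := h2.1.ne_zero
    rw [mem_biUnion]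
    refine ⟨Nat.log 2 p, ?_, ?_⟩
    · rw [mem_Ico]
      constructor
      · exact Nat.le_log_of_pow_le (by norm_num) h3
      · rw [hBn]
        exact Nat.lt_succ_of_le (Nat.log_mono_right h1.le)
    · rw [mem_filter, mem_Ico]
      exact ⟨⟨Nat.pow_log_le_self _ hp0, Nat.lt_pow_succ_log_self (by norm_num) _⟩, h2⟩
  have hstep : ∀ i ∈ Ico I Bn, ∑ p ∈ (Ico (2 ^ i) (2 ^ (i + 1))).filter
        (fun p : ℕ => p.Prime ∧ ¬ p ^ K ∣ Nat.centralBinom n), (1 : ℝ) / p ≤
      2 ^ K * (400 * ((7 / 8) ^ (Nat.log 256 i) / i) + 2 * (1 / (i : ℝ) ^ 2) + 6400 / Real.log n) := by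
    intro i hi
    rw [mem_Ico] at hi
    have hlog' : Real.log n ^ 20 ≤ 2 ^ (i + 1) :=
      hlog.trans (pow_le_pow_right₀ (by norm_num) (by omega))
    have h1 := long_block (n := n) (u := i / 32) (i := i) (K := K) (by omega) (by omega) (by omega)
      (hi1 i (by omega)) hn hlog'
    refine h1.trans ?_
    have hi0 : (1 : ℝ) ≤ i := by exact_mod_cast (by omega : 1 ≤ i)
    have h2 : 400 * (8 * ((i : ℝ) + 1) / Real.log n) / i ≤ 6400 / Real.log n := by
      rw [div_le_div_iff₀ (by linarith) hlogn]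
      have : 400 * (8 * ((i : ℝ) + 1) / Real.log n) * Real.log n = 3200 * (i + 1) := by
        field_simp; ring
      rw [this]; nlinarith
    have h3 : 400 * ((7 / 8 : ℝ) ^ (Nat.log 256 i) + 8 * (i + 1) / Real.log n) / i + 2 / (i : ℝ) ^ 2 =
        400 * ((7 / 8) ^ (Nat.log 256 i) / i) + 2 * (1 / (i : ℝ) ^ 2) +
          400 * (8 * ((i : ℝ) + 1) / Real.log n) / i := by ring
    rw [h3]
    gcongr
  calc ∑ p ∈ (range n).filter (fun p : ℕ => (p.Prime ∧ ¬ p ^ K ∣ Nat.centralBinom n) ∧ 2 ^ I ≤ p),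
        (1 : ℝ) / p
      ≤ ∑ p ∈ (Ico I Bn).biUnion (fun i => (Ico (2 ^ i) (2 ^ (i + 1))).filter
        (fun p : ℕ => p.Prime ∧ ¬ p ^ K ∣ Nat.centralBinom n)), (1 : ℝ) / p :=
        sum_le_sum_of_subset_of_nonneg hcover (fun _ _ _ => by positivity)
    _ ≤ ∑ i ∈ Ico I Bn, ∑ p ∈ (Ico (2 ^ i) (2 ^ (i + 1))).filter
        (fun p : ℕ => p.Prime ∧ ¬ p ^ K ∣ Nat.centralBinom n), (1 : ℝ) / p :=
        sum_biUnion_le' _ _ _ (fun _ => by positivity)
    _ ≤ ∑ i ∈ Ico I Bn, 2 ^ K * (400 * ((7 / 8) ^ (Nat.log 256 i) / i) + 2 * (1 / (i : ℝ) ^ 2) +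
          6400 / Real.log n) := sum_le_sum hstep
    _ = 2 ^ K * (400 * ∑ i ∈ Ico I Bn, ((7 / 8 : ℝ) ^ (Nat.log 256 i) / i) +
          2 * ∑ i ∈ Ico I Bn, (1 / (i : ℝ) ^ 2) + (Bn - I : ℕ) * (6400 / Real.log n)) := by
        rw [← mul_sum, sum_add_distrib, sum_add_distrib, ← mul_sum, ← mul_sum]
        simp
    _ ≤ 2 ^ K * (400 * S1 + 2 * S2 + 19200) := by
        have h1 : ∑ i ∈ Ico I Bn, ((7 / 8 : ℝ) ^ (Nat.log 256 i) / i) ≤ S1 :=
          summable_main.sum_le_tsum _ (fun _ _ => by positivity)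
        have h2 : ∑ i ∈ Ico I Bn, (1 / (i : ℝ) ^ 2) ≤ S2 :=
          hsum2.sum_le_tsum _ (fun _ _ => by positivity)
        have h3 : ((Bn - I : ℕ) : ℝ) * (6400 / Real.log n) ≤ 19200 := by
          rw [← mul_div_assoc, div_le_iff₀ hlogn]
          have h4 : ((Bn - I : ℕ) : ℝ) ≤ 3 * Real.log n := by
            have h5 : ((Bn - I : ℕ) : ℝ) + 1 ≤ Bn := by
              rcases Nat.lt_or_ge I Bn with h | h
              · have : Bn - I + 1 ≤ Bn := by omega
                exact_mod_cast this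
              · rw [show Bn - I = 0 by omega]
                have : 1 ≤ Bn := by omega
                push_cast
                have h6 : (1 : ℝ) ≤ Bn := by exact_mod_cast this
                linarith
            linarith
          linarith
        gcongr

end Pool.Agent.H554.CB
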