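import Pool.Agent.H554.CB.ExpSum

set_option autoImplicit false

open Finset

namespace Pool.Agent.H554.CB

open Pool.Agent.H469R2.NK (e norm_e e_add e_zero)

/-- the majorant -/
noncomputable def psi (t : ℝ) : ℝ :=
  7 / 8 + 1 / 4 * Real.sin (2 * Real.pi * t) + 1 / 8 * Real.cos (2 * (2 * Real.pi * t))

lemma psi_eq (t : ℝ) : psi t = 1 + 1 / 4 * Real.sin (2 * Real.pi * t) -
    1 / 4 * Real.sin (2 * Real.pi * t) ^ 2 := by
  unfold psi
  rw [Real.cos_two_mul, Real.cos_sq']
  ring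

lemma psi_ge_half (t : ℝ) : 1 / 2 ≤ psi t := by
  rw [psi_eq]
  have h1 := Real.sin_le_one (2 * Real.pi * t)
  have h2 := Real.neg_one_le_sin (2 * Real.pi * t)
  nlinarith

lemma psi_pos (t : ℝ) : 0 < psi t := lt_of_lt_of_le (by norm_num) (psi_ge_half t)

lemma psi_ge_one (t : ℝ) (ht : Int.fract t ≤ 1 / 2) : 1 ≤ psi t := by
  rw [psi_eq]
  have h1 : Real.sin (2 * Real.pi * t) = Real.sin (2 * Real.pi * Int.fract t) := by
    have : 2 * Real.pi * t = 2 * Real.pi * Int.fract t + (⌊t⌋ : ℝ) * (2 * Real.pi) := by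
      have := Int.floor_add_fract t
      nth_rewrite 1 [← this]; ring
    rw [this]
    exact Real.sin_add_int_mul_two_pi _ _
  have h2 : 0 ≤ Real.sin (2 * Real.pi * t) := by
    rw [h1]
    apply Real.sin_nonneg_of_nonneg_of_le_pi
    · have := Int.fract_nonneg t
      have := Real.pi_pos
      positivity
    · have := Real.pi_pos
      nlinarith
  have h3 := Real.sin_le_one (2 * Real.pi * t)
  nlinarith

/-- Fourier coefficients of the majorant -/
noncomputable def cf (h : ℤ) : ℂ :=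
  if h = 0 then 7 / 8 else if h = 1 then -Complex.I / 8 else if h = -1 then Complex.I / 8 else 1 / 16

lemma Icc_two : Finset.Icc (-2 : ℤ) 2 = {-2, -1, 0, 1, 2} := by decide

lemma psi_expand (t : ℝ) : ((psi t : ℝ) : ℂ) = ∑ h ∈ Finset.Icc (-2 : ℤ) 2, cf h * e (h * t) := by
  rw [Icc_two]
  rw [sum_insert (by decide), sum_insert (by decide), sum_insert (by decide), sum_insert (by decide),
    sum_singleton]
  unfold psi cf e
  set θ : ℝ := 2 * Real.pi * t with hθ
  have h1 : (2 * Real.pi * (((1 : ℤ) : ℝ) * t)) = θ := by rw [hθ]; push_cast; ring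
  have h2 : (2 * Real.pi * (((-1 : ℤ) : ℝ) * t)) = -θ := by rw [hθ]; push_cast; ring
  have h3 : (2 * Real.pi * (((2 : ℤ) : ℝ) * t)) = 2 * θ := by rw [hθ]; push_cast; ring
  have h4 : (2 * Real.pi * (((-2 : ℤ) : ℝ) * t)) = -(2 * θ) := by rw [hθ]; push_cast; ring
  have h5 : (2 * Real.pi * (((0 : ℤ) : ℝ) * t)) = 0 := by push_cast; ring
  rw [h1, h2, h3, h4, h5]
  norm_num
  have E2 : Complex.exp (-((θ : ℂ) * Complex.I)) = Complex.cos θ - Complex.sin θ * Complex.I := by
    rw [← neg_mul, Complex.exp_mul_I, Complex.cos_neg, Complex.sin_neg]; ring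
  have E4 : Complex.exp (-(2 * (θ : ℂ) * Complex.I)) =
      Complex.cos (2 * θ) - Complex.sin (2 * θ) * Complex.I := by
    rw [← neg_mul, Complex.exp_mul_I, Complex.cos_neg, Complex.sin_neg]; ring
  rw [E2, E4, Complex.exp_mul_I, Complex.exp_mul_I]
  linear_combination (1 / 4 * Complex.sin θ) * Complex.I_mul_I

lemma cf_zero : cf 0 = 7 / 8 := by unfold cf; simp

lemma sum_norm_cf : ∑ h ∈ Finset.Icc (-2 : ℤ) 2, ‖cf h‖ = 5 / 4 := by
  rw [Icc_two]
  rw [sum_insert (by decide), sum_insert (by decide), sum_insert (by decide), sum_insert (by decide),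
    sum_singleton]
  unfold cf
  norm_num

lemma expand (T0 : Finset ℕ) (F : ℕ → ℕ → ℝ) (L : ℕ) (B : ℝ) (hB0 : 0 ≤ B)
    (hB : ∀ a : ℕ → ℤ, (∀ m, |a m| ≤ 2) → (∃ m ∈ T0, a m ≠ 0) →
      ‖∑ t ∈ range L, e (∑ m ∈ T0, (a m : ℝ) * F m t)‖ ≤ B) (T : Finset ℕ) :
    T ⊆ T0 → ∀ a : ℕ → ℤ, (∀ m, |a m| ≤ 2) → (∀ m ∈ T, a m = 0) →
    ‖∑ t ∈ range L, e (∑ m ∈ T0, (a m : ℝ) * F m t) * ∏ m ∈ T, ((psi (F m t) : ℝ) : ℂ) -
      (if ∀ m ∈ T0, a m = 0 then (7 / 8 : ℂ) ^ T.card * L else 0)‖ ≤ (5 / 4) ^ T.card * B := by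
  classical
  induction T using Finset.induction_on with
  | empty =>
    intro _ a ha _
    simp only [prod_empty, mul_one, card_empty, pow_zero, one_mul]
    split_ifs with h
    · have h1 : ∀ t ∈ range L, e (∑ m ∈ T0, (a m : ℝ) * F m t) = 1 := by
        intro t _
        rw [sum_eq_zero (fun m hm => by rw [h m hm]; simp), e_zero]
      rw [sum_congr rfl h1]
      simp [hB0]
    · rw [sub_zero]
      push Not at h
      exact hB a ha h
  | insert m T hmT ih =>
    intro hT a ha haT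
    have hm0 : m ∈ T0 := hT (mem_insert_self _ _)
    have ham : a m = 0 := haT m (mem_insert_self _ _)
    have hTT : T ⊆ T0 := fun x hx => hT (mem_insert_of_mem hx)
    have hph : ∀ (h : ℤ) (t : ℕ), ∑ m' ∈ T0, ((Function.update a m h m' : ℤ) : ℝ) * F m' t =
        (∑ m' ∈ T0, (a m' : ℝ) * F m' t) + h * F m t := by
      intro h t
      rw [← add_sum_erase _ _ hm0, ← add_sum_erase (a := m) T0 (fun m' => (a m' : ℝ) * F m' t) hm0]
      rw [Function.update_self, ham]
      have : ∑ x ∈ T0.erase m, ((Function.update a m h x : ℤ) : ℝ) * F x t =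
          ∑ x ∈ T0.erase m, (a x : ℝ) * F x t := by
        refine sum_congr rfl fun x hx => ?_
        rw [Function.update_of_ne (mem_erase.1 hx).1]
      rw [this]; push_cast; ring
    have hexp : ∑ t ∈ range L, e (∑ m' ∈ T0, (a m' : ℝ) * F m' t) *
          ∏ m' ∈ insert m T, ((psi (F m' t) : ℝ) : ℂ) =
        ∑ h ∈ Finset.Icc (-2 : ℤ) 2, cf h * ∑ t ∈ range L,
          e (∑ m' ∈ T0, ((Function.update a m h m' : ℤ) : ℝ) * F m' t) *
          ∏ m' ∈ T, ((psi (F m' t) : ℝ) : ℂ) := by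
      simp_rw [mul_sum]
      rw [sum_comm]
      refine sum_congr rfl fun t _ => ?_
      rw [prod_insert hmT, psi_expand (F m t), sum_mul, mul_sum]
      refine sum_congr rfl fun h _ => ?_
      rw [hph, e_add]
      ring
    have hmain : (if ∀ m' ∈ T0, a m' = 0 then (7 / 8 : ℂ) ^ (insert m T).card * L else 0) =
        ∑ h ∈ Finset.Icc (-2 : ℤ) 2, cf h *
          (if ∀ m' ∈ T0, Function.update a m h m' = 0 then (7 / 8 : ℂ) ^ T.card * L else 0) := by
      rw [sum_eq_single (0 : ℤ)]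
      · have h1 : Function.update a m 0 = a := by
          rw [← ham]; exact Function.update_eq_self m a
        rw [h1, cf_zero, card_insert_of_notMem hmT]
        split_ifs
        · rw [pow_succ]; ring
        · ring
      · intro h _ hh
        rw [if_neg, mul_zero]
        intro hcon
        have := hcon m hm0
        rw [Function.update_self] at this
        exact hh this
      · intro h
        exact absurd (by decide : (0 : ℤ) ∈ Finset.Icc (-2 : ℤ) 2) h
    rw [hexp, hmain, ← sum_sub_distrib]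
    refine (norm_sum_le _ _).trans ?_
    rw [card_insert_of_notMem hmT]
    calc ∑ h ∈ Finset.Icc (-2 : ℤ) 2, ‖cf h * (∑ t ∈ range L,
          e (∑ m' ∈ T0, ((Function.update a m h m' : ℤ) : ℝ) * F m' t) *
          ∏ m' ∈ T, ((psi (F m' t) : ℝ) : ℂ)) - cf h *
          (if ∀ m' ∈ T0, Function.update a m h m' = 0 then (7 / 8 : ℂ) ^ T.card * L else 0)‖
        ≤ ∑ h ∈ Finset.Icc (-2 : ℤ) 2, ‖cf h‖ * ((5 / 4) ^ T.card * B) := by
          refine sum_le_sum fun h hh => ?_
          rw [← mul_sub, norm_mul]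
          refine mul_le_mul_of_nonneg_left ?_ (norm_nonneg _)
          refine ih hTT (Function.update a m h) ?_ ?_
          · intro m'
            by_cases hmm : m' = m
            · subst hmm
              rw [Function.update_self, abs_le]
              exact mem_Icc.1 hh
            · rw [Function.update_of_ne hmm]; exact ha m'
          · intro m' hm'
            have hmm : m' ≠ m := fun h' => hmT (h' ▸ hm')
            rw [Function.update_of_ne hmm]
            exact haT m' (mem_insert_of_mem hm')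
      _ = (5 / 4) ^ (T.card + 1) * B := by
          rw [← sum_mul, sum_norm_cf, pow_succ]; ring

/-- the average of the product weight -/
theorem weight_sum (T0 : Finset ℕ) (F : ℕ → ℕ → ℝ) (L : ℕ) (B : ℝ) (hB0 : 0 ≤ B)
    (hB : ∀ a : ℕ → ℤ, (∀ m, |a m| ≤ 2) → (∃ m ∈ T0, a m ≠ 0) →
      ‖∑ t ∈ range L, e (∑ m ∈ T0, (a m : ℝ) * F m t)‖ ≤ B) :
    |∑ t ∈ range L, ∏ m ∈ T0, psi (F m t) - (7 / 8) ^ T0.card * L| ≤ (5 / 4) ^ T0.card * B := by
  have h := expand T0 F L B hB0 hB T0 (Subset.refl _) (fun _ => 0) (by intro m; simp)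
    (fun _ _ => rfl)
  rw [if_pos (fun _ _ => rfl)] at h
  have h1 : ∀ t, e (∑ m ∈ T0, (((0 : ℤ) : ℝ)) * F m t) = 1 := by
    intro t
    rw [sum_eq_zero (fun m _ => by simp), e_zero]
  simp only [h1, one_mul] at h
  have h2 : ((∑ t ∈ range L, ∏ m ∈ T0, psi (F m t) - (7 / 8) ^ T0.card * L : ℝ) : ℂ) =
      ∑ t ∈ range L, ∏ m ∈ T0, ((psi (F m t) : ℝ) : ℂ) - (7 / 8 : ℂ) ^ T0.card * L := by
    push_cast; rfl
  rw [← h2, Complex.norm_real] at h
  exact h

end Pool.Agent.H554.CB
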