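import Pool.Agent.H554.CB.Diff

set_option autoImplicit false

open Finset

namespace Pool.Agent.H554.CB

open Pool.Agent.H469R2.NK (e norm_e e_add conj_e vdcH kusmin_landau_mono norm_sum_neg)

/-- size of the `k`-th difference of `n / (d x) ^ m` at `x = X` -/
noncomputable def Lam (n d X m k : ℕ) : ℝ :=
  (n : ℝ) / (d : ℝ) ^ m * ((m.ascFactorial k : ℝ) * (1 / (X : ℝ) ^ (m + k)))

lemma Lam_nonneg (n d X m k : ℕ) : 0 ≤ Lam n d X m k := by unfold Lam; positivity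

lemma Lam_succ_m {n d X m k : ℕ} (hd : 0 < d) (hX : 0 < X) (hm : 1 ≤ m) :
    Lam n d X (m + 1) k ≤ ((k : ℝ) + 1) / (d * X) * Lam n d X m k := by
  have hd' : (0 : ℝ) < d := by exact_mod_cast hd
  have hX' : (0 : ℝ) < X := by exact_mod_cast hX
  have hm' : (1 : ℝ) ≤ m := by exact_mod_cast hm
  have h1 : (m : ℝ) * ((m + 1).ascFactorial k : ℝ) = (m + k) * (m.ascFactorial k : ℝ) := by
    exact_mod_cast Nat.succ_ascFactorial m k
  have h2 : ((m + 1).ascFactorial k : ℝ) ≤ ((k : ℝ) + 1) * (m.ascFactorial k : ℝ) := by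
    have h3 : (m : ℝ) * ((m + 1).ascFactorial k : ℝ) ≤ m * (((k : ℝ) + 1) * (m.ascFactorial k : ℝ)) := by
      rw [h1]
      have h4 : (0 : ℝ) ≤ (m.ascFactorial k : ℝ) := by positivity
      have h5 : (m : ℝ) + k ≤ m * (k + 1) := by nlinarith [(Nat.cast_nonneg k : (0 : ℝ) ≤ k)]
      nlinarith
    exact le_of_mul_le_mul_left h3 (by linarith)
  unfold Lam
  calc (n : ℝ) / (d : ℝ) ^ (m + 1) * (((m + 1).ascFactorial k : ℝ) * (1 / (X : ℝ) ^ (m + 1 + k)))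
      ≤ (n : ℝ) / (d : ℝ) ^ (m + 1) * ((((k : ℝ) + 1) * (m.ascFactorial k : ℝ)) *
        (1 / (X : ℝ) ^ (m + 1 + k))) := by gcongr
    _ = _ := by
      rw [show m + 1 + k = m + k + 1 by ring, pow_succ (d : ℝ) m, pow_succ (X : ℝ) (m + k)]
      field_simp

lemma Lam_gt {n d X m0 k : ℕ} (hd : 0 < d) (hX : 0 < X) (hm : 1 ≤ m0)
    (hρ : ((k : ℝ) + 1) / (d * X) ≤ 1) (m : ℕ) (h : m0 < m) :
    Lam n d X m k ≤ ((k : ℝ) + 1) / (d * X) * Lam n d X m0 k := by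
  induction m, h using Nat.le_induction with
  | base => exact Lam_succ_m hd hX hm
  | succ m hm2 ih =>
    have h1 := Lam_succ_m (n := n) (k := k) hd hX (show 1 ≤ m by omega)
    have h2 : ((k : ℝ) + 1) / (d * X) * Lam n d X m k ≤ 1 * Lam n d X m k :=
      mul_le_mul_of_nonneg_right hρ (Lam_nonneg _ _ _ _ _)
    linarith

lemma Lam_succ_k {n d X m k : ℕ} (hX : 0 < X) :
    Lam n d X m (k + 1) = Lam n d X m k * (((m : ℝ) + k) / X) := by
  have hX' : (0 : ℝ) < X := by exact_mod_cast hX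
  unfold Lam
  rw [Nat.ascFactorial_succ, ← add_assoc, pow_succ]
  push_cast
  field_simp

lemma Lam_zero {n d X m : ℕ} : Lam n d X m 0 = n / ((d : ℝ) * X) ^ m := by
  unfold Lam
  simp [mul_pow]
  field_simp

lemma bern {x u : ℝ} {M : ℕ} (hx : 0 < x) (hu : 0 ≤ u) (h : 4 * (M * u) ≤ x) :
    3 / 4 * (1 / x ^ M) ≤ 1 / (x + u) ^ M := by
  have hxu : 0 < x + u := by linarith
  have h1 := one_add_mul_le_pow (a := -(u / (x + u))) (by
    have : u / (x + u) ≤ 1 := by rw [div_le_one hxu]; linarith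
    linarith) M
  have h2 : (1 : ℝ) + -(u / (x + u)) = x / (x + u) := by field_simp; ring
  rw [h2, div_pow] at h1
  have h3 : (M : ℝ) * (u / (x + u)) ≤ 1 / 4 := by
    rw [← mul_div_assoc, div_le_iff₀ hxu]
    linarith
  have h4 : 3 / 4 ≤ x ^ M / (x + u) ^ M := by linarith
  rw [le_div_iff₀ (by positivity)] at h4
  rw [mul_one_div, div_le_div_iff₀ (by positivity) (by positivity)]
  linarith

/-- the phase -/
noncomputable def ph (n : ℕ) (T : Finset ℕ) (a : ℕ → ℤ) (x : ℝ) : ℝ :=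
  ∑ m ∈ T, (a m : ℝ) * (n / x ^ m)

lemma dif_phase (n d X : ℕ) (hX : 0 < X) (T : Finset ℕ) (a : ℕ → ℤ) (σ : ℝ) (k t : ℕ) :
    dif^[k] (fun t : ℕ => σ * ph n T a (d * (X + t))) t =
      ∑ m ∈ T, σ * a m * ((n : ℝ) / (d : ℝ) ^ m * rdif^[k] (ip m) (X + t)) := by
  have h1 : (fun t : ℕ => σ * ph n T a (d * (X + t))) =
      fun t : ℕ => ∑ m ∈ T, (σ * a m * ((n : ℝ) / (d : ℝ) ^ m)) * ip m (X + t) := by
    funext t
    unfold ph
    rw [mul_sum]
    refine sum_congr rfl fun m _ => ?_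
    unfold ip
    rw [mul_pow]
    have : (0 : ℝ) < X + t := by positivity
    rw [div_mul_eq_div_div]
    ring
  rw [h1, dif_iter_sum T (fun m (t : ℕ) => (σ * a m * ((n : ℝ) / (d : ℝ) ^ m)) * ip m (X + t))]
  refine sum_congr rfl fun m _ => ?_
  rw [dif_iter_const_mul, dif_iter_real]
  ring

/-- two-sided bounds for the differences of the phase -/
theorem phase_bounds (n d X L k : ℕ) (hd : 0 < d) (hX : 0 < X) (T : Finset ℕ) (a : ℕ → ℤ)
    (ha : ∀ m, |a m| ≤ 2) (m0 : ℕ) (hm0 : m0 ∈ T) (ham0 : a m0 ≠ 0) (hm1 : 1 ≤ m0)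
    (hmin : ∀ m ∈ T, a m ≠ 0 → m0 ≤ m)
    (h1 : 4 * ((m0 + k) * (L + k)) ≤ X) (h2 : 16 * (T.card * (k + 1)) ≤ d * X) :
    ∃ σ : ℝ, (σ = 1 ∨ σ = -1) ∧ ∀ t < L,
      Lam n d X m0 k / 2 ≤ dif^[k] (fun t : ℕ => σ * ph n T a (d * (X + t))) t ∧
      dif^[k] (fun t : ℕ => σ * ph n T a (d * (X + t))) t ≤ 8 * (Lam n d X m0 k / 2) := by
  have hd' : (0 : ℝ) < d := by exact_mod_cast hd
  have hX' : (0 : ℝ) < X := by exact_mod_cast hX
  have hΛ := Lam_nonneg n d X m0 k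
  obtain ⟨s, hs, hsa⟩ : ∃ s : ℝ, (s = 1 ∨ s = -1) ∧ s * a m0 = |(a m0 : ℝ)| := by
    rcases le_or_gt 0 (a m0 : ℝ) with h | h
    · exact ⟨1, Or.inl rfl, by rw [abs_of_nonneg h, one_mul]⟩
    · exact ⟨-1, Or.inr rfl, by rw [abs_of_neg h]; ring⟩
  have hk : ((-1 : ℝ) ^ k = 1 ∨ (-1 : ℝ) ^ k = -1) := neg_one_pow_eq_or ℝ k
  refine ⟨(-1) ^ k * s, ?_, ?_⟩
  · rcases hk with h | h <;> rcases hs with h' | h' <;> rw [h, h'] <;> norm_num
  intro t ht
  rw [dif_phase n d X hX]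
  have hXt : (0 : ℝ) < X + t := by positivity
  have hcard1 : 1 ≤ T.card := card_pos.2 ⟨m0, hm0⟩
  have hdX : (0 : ℝ) < d * X := by positivity
  have h2' : 16 * ((T.card : ℝ) * (k + 1)) ≤ d * X := by exact_mod_cast h2
  have hcard1' : (1 : ℝ) ≤ T.card := by exact_mod_cast hcard1
  have hρ : ((k : ℝ) + 1) / (d * X) ≤ 1 := by
    rw [div_le_one hdX]
    nlinarith [(Nat.cast_nonneg k : (0 : ℝ) ≤ k)]
  have hs1 : |s| = 1 := by rcases hs with h | h <;> rw [h] <;> norm_num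
  have hterm : ∀ m, (-1 : ℝ) ^ k * s * a m * ((n : ℝ) / (d : ℝ) ^ m * rdif^[k] (ip m) (X + t)) =
      (s * a m) * ((n : ℝ) / (d : ℝ) ^ m * ((-1) ^ k * rdif^[k] (ip m) (X + t))) := by
    intro m; ring
  rw [sum_congr rfl fun m _ => hterm m, ← add_sum_erase T _ hm0, hsa]
  -- the main term
  have hG := fun m => rdif_bounds k m (X + t) hXt
  have hub : ∀ m, (n : ℝ) / (d : ℝ) ^ m * ((-1) ^ k * rdif^[k] (ip m) (X + t)) ≤ Lam n d X m k := by
    intro m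
    unfold Lam
    have h3 : (m.ascFactorial k : ℝ) * (1 / ((X : ℝ) + t) ^ (m + k)) ≤
        (m.ascFactorial k : ℝ) * (1 / (X : ℝ) ^ (m + k)) := by
      have : (X : ℝ) ≤ X + t := by
        have : (0 : ℝ) ≤ t := Nat.cast_nonneg t
        linarith
      gcongr
    have h4 := (hG m).2.trans h3
    gcongr
  have hnn : ∀ m, 0 ≤ (n : ℝ) / (d : ℝ) ^ m * ((-1) ^ k * rdif^[k] (ip m) (X + t)) := by
    intro m
    have h3 := (hG m).1
    have h4 : 0 ≤ (m.ascFactorial k : ℝ) * (1 / ((X : ℝ) + t + k) ^ (m + k)) := by positivity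
    have h5 := h4.trans h3
    positivity
  have hlb : 3 / 4 * Lam n d X m0 k ≤
      (n : ℝ) / (d : ℝ) ^ m0 * ((-1) ^ k * rdif^[k] (ip m0) (X + t)) := by
    have h3 := (hG m0).1
    have h4 : 3 / 4 * (1 / (X : ℝ) ^ (m0 + k)) ≤ 1 / ((X : ℝ) + t + k) ^ (m0 + k) := by
      rw [add_assoc]
      apply bern hX' (by positivity)
      have h5 : 4 * (((m0 : ℝ) + k) * (L + k)) ≤ X := by exact_mod_cast h1
      have h6 : (t : ℝ) ≤ L := by exact_mod_cast ht.le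
      push_cast
      calc 4 * (((m0 : ℝ) + k) * (t + k)) ≤ 4 * (((m0 : ℝ) + k) * (L + k)) := by gcongr
        _ ≤ X := h5
    unfold Lam
    calc 3 / 4 * ((n : ℝ) / (d : ℝ) ^ m0 * ((m0.ascFactorial k : ℝ) * (1 / (X : ℝ) ^ (m0 + k))))
        = (n : ℝ) / (d : ℝ) ^ m0 * ((m0.ascFactorial k : ℝ) * (3 / 4 * (1 / (X : ℝ) ^ (m0 + k)))) := by ring
      _ ≤ (n : ℝ) / (d : ℝ) ^ m0 * ((m0.ascFactorial k : ℝ) * (1 / ((X : ℝ) + t + k) ^ (m0 + k))) := by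
        gcongr
      _ ≤ _ := by gcongr
  -- the other terms
  have hrest : |∑ m ∈ T.erase m0, (s * a m) *
      ((n : ℝ) / (d : ℝ) ^ m * ((-1) ^ k * rdif^[k] (ip m) (X + t)))| ≤ Lam n d X m0 k / 8 := by
    have h3 : ∀ m ∈ T.erase m0, |(s * a m) *
        ((n : ℝ) / (d : ℝ) ^ m * ((-1) ^ k * rdif^[k] (ip m) (X + t)))| ≤
        2 * (((k : ℝ) + 1) / (d * X) * Lam n d X m0 k) := by
      intro m hm
      rw [mem_erase] at hm
      rw [abs_mul, abs_mul, hs1, one_mul, abs_of_nonneg (hnn m)]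
      by_cases h0 : a m = 0
      · rw [h0]; simp; positivity
      · have h4 : m0 < m := lt_of_le_of_ne (hmin m hm.2 h0) (Ne.symm hm.1)
        have h5 : |(a m : ℝ)| ≤ 2 := by exact_mod_cast ha m
        have h6 := (hub m).trans (Lam_gt hd hX hm1 hρ m h4)
        have h7 := hnn m
        gcongr
    refine (abs_sum_le_sum_abs _ _).trans ((sum_le_sum h3).trans ?_)
    rw [sum_const, nsmul_eq_mul]
    have h4 : ((T.erase m0).card : ℝ) ≤ T.card := by exact_mod_cast card_erase_le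
    have h5 : (T.card : ℝ) * (2 * (((k : ℝ) + 1) / (d * X))) ≤ 1 / 8 := by
      rw [show (T.card : ℝ) * (2 * (((k : ℝ) + 1) / (d * X))) =
        2 * (T.card * (k + 1)) / (d * X) by ring, div_le_iff₀ hdX]
      linarith
    calc ((T.erase m0).card : ℝ) * (2 * (((k : ℝ) + 1) / (d * X) * Lam n d X m0 k))
        ≤ (T.card : ℝ) * (2 * (((k : ℝ) + 1) / (d * X) * Lam n d X m0 k)) := by gcongr
      _ = (T.card : ℝ) * (2 * (((k : ℝ) + 1) / (d * X))) * Lam n d X m0 k := by ring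
      _ ≤ 1 / 8 * Lam n d X m0 k := by gcongr
      _ = _ := by ring
  obtain ⟨hr1, hr2⟩ := abs_le.1 hrest
  have hA1 : (1 : ℝ) ≤ |(a m0 : ℝ)| := by
    have : 1 ≤ |a m0| := Int.one_le_abs ham0
    exact_mod_cast this
  have hA2 : |(a m0 : ℝ)| ≤ 2 := by exact_mod_cast ha m0
  set G0 := (n : ℝ) / (d : ℝ) ^ m0 * ((-1) ^ k * rdif^[k] (ip m0) (X + t)) with hG0
  have hG00 : 0 ≤ G0 := hnn m0
  have hG0u : G0 ≤ Lam n d X m0 k := hub m0
  have h5 : G0 ≤ |(a m0 : ℝ)| * G0 := le_mul_of_one_le_left hG00 hA1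
  have h6 : |(a m0 : ℝ)| * G0 ≤ 2 * G0 := mul_le_mul_of_nonneg_right hA2 hG00
  constructor <;> linarith

end Pool.Agent.H554.CB
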