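import Mathlib
import Pool.Graph.R_pool_sql_team_668148b0.Helper564.E451.Sieve

set_option autoImplicit false

open Finset Nat ArithmeticFunction BoundingSieve

namespace Pool.Agent.H554.CB

open Pool.Agent.Helper923.PPS (selS selW selS_pos selW_one mainSum_selW selW_eq_zero PP PP_squarefree
  invAF invAF_apply selS_ge_log prime_dvd_PP)
open Pool.Agent.Helper564.E451 (wtSieve)

theorem abs_selW_le_one (s : BoundingSieve) (R : ℝ) (hR : 1 ≤ R) {d : ℕ} (hd : d ∣ s.prodPrimes) :
    |selW s R d| ≤ 1 := by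
  have hnu : 0 < s.nu d := nu_pos_of_dvd_prodPrimes hd
  have hS := selS_pos s R hR
  have hgd : 0 < s.selbergTerms d := selbergTerms_pos hd
  set T := (divisors s.prodPrimes).filter (fun l : ℕ => d ∣ l ∧ (l : ℝ) ≤ R) with hT
  have h0 : 0 ≤ ∑ l ∈ T, s.selbergTerms l := by
    apply Finset.sum_nonneg
    intro l hl
    rw [hT, Finset.mem_filter, Nat.mem_divisors] at hl
    exact (selbergTerms_pos hl.1.1).le
  have hP0 := prodPrimes_ne_zero (s := s)
  have hd0 : 0 < d := Nat.pos_of_ne_zero (ne_zero_of_dvd_ne_zero hP0 hd)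
  have hmult := selbergTerms_isMultiplicative (s := s)
  have key : (s.nu d)⁻¹ * ∑ l ∈ T, s.selbergTerms l ≤ selS s R := by
    have h1 := sum_divisors_selbergTerms_eq_selbergTerms_mul_nu_inv hd
    rw [← Finset.sum_filter, Nat.divisors_filter_dvd_of_dvd hP0 hd] at h1
    have h2 : (s.nu d)⁻¹ = (∑ k ∈ d.divisors, s.selbergTerms k) * (s.selbergTerms d)⁻¹ := by
      rw [h1]; field_simp
    have hcop : ∀ l ∈ T, Nat.Coprime (l / d) d ∧ l = d * (l / d) ∧ l ∣ s.prodPrimes ∧ (l : ℝ) ≤ R := by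
      intro l hl
      rw [hT, Finset.mem_filter, Nat.mem_divisors] at hl
      have h3 : l = d * (l / d) := (Nat.mul_div_cancel' hl.2.1).symm
      have hsq : Squarefree l := s.prodPrimes_squarefree.squarefree_of_dvd hl.1.1
      rw [h3] at hsq
      exact ⟨(coprime_of_squarefree_mul hsq).symm, h3, hl.1.1, hl.2.2⟩
    have h3 : (s.nu d)⁻¹ * ∑ l ∈ T, s.selbergTerms l =
        ∑ x ∈ d.divisors ×ˢ T, s.selbergTerms (x.1 * (x.2 / d)) := by
      rw [h2, Finset.sum_product, mul_assoc, Finset.sum_mul]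
      apply Finset.sum_congr rfl
      intro k hk
      rw [← mul_assoc, Finset.mul_sum]
      apply Finset.sum_congr rfl
      intro l hl
      obtain ⟨hc, hl2, hl3, _⟩ := hcop l hl
      have hkd := Nat.dvd_of_mem_divisors hk
      have hck : Nat.Coprime k (l / d) := Nat.Coprime.coprime_dvd_left hkd hc.symm
      rw [hmult.map_mul_of_coprime hck]
      have : s.selbergTerms l = s.selbergTerms d * s.selbergTerms (l / d) := by
        conv_lhs => rw [hl2]
        exact hmult.map_mul_of_coprime hc.symm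
      rw [this]
      field_simp
    rw [h3]
    have hinj : ∀ x ∈ d.divisors ×ˢ T, ∀ y ∈ d.divisors ×ˢ T,
        x.1 * (x.2 / d) = y.1 * (y.2 / d) → x = y := by
      rintro ⟨k, l⟩ hx ⟨k', l'⟩ hy hxy
      rw [Finset.mem_product] at hx hy
      simp only at hx hy hxy
      obtain ⟨hc, hl2, _, _⟩ := hcop l hx.2
      obtain ⟨hc', hl2', _, _⟩ := hcop l' hy.2
      have hkd := Nat.dvd_of_mem_divisors hx.1
      have hkd' := Nat.dvd_of_mem_divisors hy.1
      have e1 : Nat.gcd (k * (l / d)) d = k := by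
        rw [Nat.Coprime.gcd_mul_right_cancel k hc]
        exact Nat.gcd_eq_left hkd
      have e2 : Nat.gcd (k' * (l' / d)) d = k' := by
        rw [Nat.Coprime.gcd_mul_right_cancel k' hc']
        exact Nat.gcd_eq_left hkd'
      have e3 : k = k' := by rw [← e1, ← e2, hxy]
      subst e3
      have hk0 : 0 < k := Nat.pos_of_mem_divisors hx.1
      have e4 : l / d = l' / d := Nat.eq_of_mul_eq_mul_left hk0 hxy
      rw [Prod.mk.injEq]
      refine ⟨rfl, ?_⟩
      rw [hl2, hl2', e4]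
    rw [← Finset.sum_image (f := fun l => s.selbergTerms l) (g := fun x : ℕ × ℕ => x.1 * (x.2 / d))
      (by intro x hx y hy h; exact hinj x hx y hy h)]
    unfold selS
    apply Finset.sum_le_sum_of_subset_of_nonneg
    · intro m hm
      rw [Finset.mem_image] at hm
      obtain ⟨⟨k, l⟩, hx, rfl⟩ := hm
      rw [Finset.mem_product] at hx
      simp only at hx
      obtain ⟨hc, hl2, hl3, hl4⟩ := hcop l hx.2
      have hkd := Nat.dvd_of_mem_divisors hx.1
      have h5 : k * (l / d) ∣ l := by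
        conv_rhs => rw [hl2]
        exact Nat.mul_dvd_mul_right hkd _
      rw [Finset.mem_filter, Nat.mem_divisors]
      refine ⟨⟨h5.trans hl3, hP0⟩, ?_⟩
      have h6 : k * (l / d) ≤ l := Nat.le_of_dvd
        (Nat.pos_of_ne_zero (ne_zero_of_dvd_ne_zero hP0 hl3)) h5
      have : ((k * (l / d) : ℕ) : ℝ) ≤ l := by exact_mod_cast h6
      exact this.trans hl4
    · intro l hl _
      rw [Finset.mem_filter, Nat.mem_divisors] at hl
      exact (selbergTerms_pos hl.1.1).le
  have hμ : |((ArithmeticFunction.moebius d : ℤ) : ℝ)| ≤ 1 := by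
    have : |ArithmeticFunction.moebius d| ≤ 1 := ArithmeticFunction.abs_moebius_le_one
    exact_mod_cast this
  unfold selW
  rw [← hT, abs_mul, abs_mul, abs_mul, abs_of_nonneg h0, abs_of_pos (inv_pos.mpr hnu),
    abs_of_pos (inv_pos.mpr hS)]
  calc (s.nu d)⁻¹ * |((ArithmeticFunction.moebius d : ℤ) : ℝ)| * (selS s R)⁻¹ *
        ∑ l ∈ T, s.selbergTerms l
      ≤ (s.nu d)⁻¹ * 1 * (selS s R)⁻¹ * ∑ l ∈ T, s.selbergTerms l := by gcongr
    _ = (selS s R)⁻¹ * ((s.nu d)⁻¹ * ∑ l ∈ T, s.selbergTerms l) := by ring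
    _ ≤ (selS s R)⁻¹ * selS s R := by gcongr
    _ = 1 := inv_mul_cancel₀ hS.ne'

/-- Selberg's sieve with individual remainders. -/
theorem sifted_le (s : BoundingSieve) (R : ℝ) (hR : 1 ≤ R) (B : ℕ → ℝ) (hB : ∀ d, 0 ≤ B d)
    (hrem : ∀ d, d ∣ s.prodPrimes → (d : ℝ) ≤ R ^ 2 → |s.rem d| ≤ B d) :
    s.siftedSum ≤ s.totalMass / selS s R +
      ∑ d1 ∈ (divisors s.prodPrimes).filter (fun d : ℕ => (d : ℝ) ≤ R),
      ∑ d2 ∈ (divisors s.prodPrimes).filter (fun d : ℕ => (d : ℝ) ≤ R), B (Nat.lcm d1 d2) := by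
  have h := siftedSum_le_mainSum_errSum_of_upperMoebius (s := s)
    (lambdaSquared (selW s R)) (upperMoebius_lambdaSquared _ (selW_one s R hR))
  rw [mainSum_selW s R hR] at h
  refine h.trans ?_
  rw [div_eq_mul_inv]
  gcongr
  unfold errSum
  have h1 : ∀ d ∈ divisors s.prodPrimes, |lambdaSquared (selW s R) d| * |s.rem d| ≤
      ∑ d1 ∈ divisors s.prodPrimes, ∑ d2 ∈ divisors s.prodPrimes,
        if d = Nat.lcm d1 d2 then B (Nat.lcm d1 d2) * (|selW s R d1| * |selW s R d2|) else 0 := by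
    intro d hd
    have hdP := Nat.dvd_of_mem_divisors hd
    have h2 : |lambdaSquared (selW s R) d| ≤ ∑ d1 ∈ divisors s.prodPrimes,
        ∑ d2 ∈ divisors s.prodPrimes,
        if d = Nat.lcm d1 d2 then (|selW s R d1| * |selW s R d2|) else 0 := by
      unfold lambdaSquared
      refine (Finset.abs_sum_le_sum_abs _ _).trans ?_
      calc ∑ d1 ∈ d.divisors, |∑ d2 ∈ d.divisors,
            if d = Nat.lcm d1 d2 then selW s R d1 * selW s R d2 else 0|
          ≤ ∑ d1 ∈ d.divisors, ∑ d2 ∈ d.divisors,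
            if d = Nat.lcm d1 d2 then |selW s R d1| * |selW s R d2| else 0 := by
            apply Finset.sum_le_sum
            intro d1 _
            refine (Finset.abs_sum_le_sum_abs _ _).trans ?_
            apply Finset.sum_le_sum
            intro d2 _
            split_ifs
            · rw [abs_mul]
            · simp
        _ ≤ ∑ d1 ∈ d.divisors, ∑ d2 ∈ divisors s.prodPrimes,
            if d = Nat.lcm d1 d2 then |selW s R d1| * |selW s R d2| else 0 := by
            apply Finset.sum_le_sum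
            intro d1 _
            apply Finset.sum_le_sum_of_subset_of_nonneg
            · exact Nat.divisors_subset_of_dvd prodPrimes_ne_zero hdP
            · intro d2 _ _; split_ifs <;> positivity
        _ ≤ _ := by
            apply Finset.sum_le_sum_of_subset_of_nonneg
            · exact Nat.divisors_subset_of_dvd prodPrimes_ne_zero hdP
            · intro d1 _ _
              apply Finset.sum_nonneg
              intro d2 _; split_ifs <;> positivity
    have hnn : 0 ≤ ∑ d1 ∈ divisors s.prodPrimes, ∑ d2 ∈ divisors s.prodPrimes,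
        (if d = Nat.lcm d1 d2 then B (Nat.lcm d1 d2) * (|selW s R d1| * |selW s R d2|) else 0) := by
      apply Finset.sum_nonneg
      intro d1 _
      apply Finset.sum_nonneg
      intro d2 _
      have := hB (Nat.lcm d1 d2)
      split_ifs <;> positivity
    by_cases hdR : (d : ℝ) ≤ R ^ 2
    swap
    · have h0 : |lambdaSquared (selW s R) d| ≤ 0 := by
        refine h2.trans (le_of_eq ?_)
        apply Finset.sum_eq_zero
        intro d1 hd1
        apply Finset.sum_eq_zero
        intro d2 hd2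
        split_ifs with hlcm
        · by_cases h1R : (d1 : ℝ) ≤ R
          · by_cases h2R : (d2 : ℝ) ≤ R
            · exfalso
              apply hdR
              have hle : d ≤ d1 * d2 := by
                rw [hlcm]
                have hp1 : 0 < d1 := Nat.pos_of_mem_divisors hd1
                have hp2 : 0 < d2 := Nat.pos_of_mem_divisors hd2
                exact Nat.le_of_dvd (Nat.mul_pos hp1 hp2) (Nat.lcm_dvd_mul d1 d2)
              calc (d : ℝ) ≤ (d1 : ℝ) * d2 := by exact_mod_cast hle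
                _ ≤ R * R := by gcongr
                _ = R ^ 2 := by ring
            · rw [selW_eq_zero s R (not_le.mp h2R), abs_zero, mul_zero]
          · rw [selW_eq_zero s R (not_le.mp h1R), abs_zero, zero_mul]
        · rfl
      have h00 : |lambdaSquared (selW s R) d| = 0 := le_antisymm h0 (abs_nonneg _)
      rw [h00, zero_mul]
      exact hnn
    calc |lambdaSquared (selW s R) d| * |s.rem d|
        ≤ (∑ d1 ∈ divisors s.prodPrimes, ∑ d2 ∈ divisors s.prodPrimes,
        if d = Nat.lcm d1 d2 then (|selW s R d1| * |selW s R d2|) else 0) * B d := by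
          apply mul_le_mul h2 (hrem d hdP hdR) (abs_nonneg _)
          apply Finset.sum_nonneg
          intro d1 _
          apply Finset.sum_nonneg
          intro d2 _
          split_ifs <;> positivity
      _ = _ := by
          rw [Finset.sum_mul]
          apply Finset.sum_congr rfl
          intro d1 _
          rw [Finset.sum_mul]
          apply Finset.sum_congr rfl
          intro d2 _
          split_ifs with hh
          · rw [hh]; ring
          · simp
  refine (Finset.sum_le_sum h1).trans ?_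
  rw [Finset.sum_comm]
  have h3 : ∀ d1 ∈ divisors s.prodPrimes, (∑ d ∈ divisors s.prodPrimes,
      ∑ d2 ∈ divisors s.prodPrimes,
        if d = Nat.lcm d1 d2 then B (Nat.lcm d1 d2) * (|selW s R d1| * |selW s R d2|) else 0) ≤
      ∑ d2 ∈ divisors s.prodPrimes, B (Nat.lcm d1 d2) * (|selW s R d1| * |selW s R d2|) := by
    intro d1 _
    rw [Finset.sum_comm]
    apply Finset.sum_le_sum
    intro d2 _
    rw [Finset.sum_ite_eq']
    have := hB (Nat.lcm d1 d2)
    split_ifs
    · exact le_refl _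
    · positivity
  refine (Finset.sum_le_sum h3).trans ?_
  rw [Finset.sum_filter]
  apply Finset.sum_le_sum
  intro d1 hd1
  split_ifs with h1R
  · rw [Finset.sum_filter]
    apply Finset.sum_le_sum
    intro d2 hd2
    split_ifs with h2R
    · have e1 := abs_selW_le_one s R hR (Nat.dvd_of_mem_divisors hd1)
      have e2 := abs_selW_le_one s R hR (Nat.dvd_of_mem_divisors hd2)
      have e3 := hB (Nat.lcm d1 d2)
      calc B (Nat.lcm d1 d2) * (|selW s R d1| * |selW s R d2|) ≤ B (Nat.lcm d1 d2) * (1 * 1) := by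
            gcongr
        _ = _ := by ring
    · rw [selW_eq_zero s R (not_le.mp h2R), abs_zero, mul_zero, mul_zero]
  · apply le_of_eq
    apply Finset.sum_eq_zero
    intro d2 _
    rw [selW_eq_zero s R (not_le.mp h1R), abs_zero, zero_mul, mul_zero]

lemma sum_mult_le (D g : ℕ) (hg : 1 ≤ g) :
    ∑ d ∈ (Finset.Icc 1 D).filter (fun d => g ∣ d), (1 : ℝ) / d ≤
      1 / g * ∑ m ∈ Finset.Icc 1 D, (1 : ℝ) / m := by
  have hg' : (0 : ℝ) < g := by exact_mod_cast hg
  rw [Finset.mul_sum]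
  have h1 : (Finset.Icc 1 D).filter (fun d => g ∣ d) ⊆ (Finset.Icc 1 D).image (fun m => g * m) := by
    intro d hd
    rw [Finset.mem_filter, Finset.mem_Icc] at hd
    obtain ⟨m, rfl⟩ := hd.2
    rw [Finset.mem_image]
    refine ⟨m, ?_, rfl⟩
    rw [Finset.mem_Icc]
    constructor
    · rcases Nat.eq_zero_or_pos m with h | h
      · rw [h] at hd; omega
      · exact h
    · exact (Nat.le_mul_of_pos_left m hg).trans hd.1.2
  refine (Finset.sum_le_sum_of_subset_of_nonneg h1 (fun _ _ _ => by positivity)).trans ?_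
  rw [Finset.sum_image (by
    intro a _ b _ hab
    exact Nat.eq_of_mul_eq_mul_left hg hab)]
  apply le_of_eq
  apply Finset.sum_congr rfl
  intro m _
  push_cast
  rw [one_div_mul_one_div]

lemma sum_lcm_le (D : ℕ) :
    ∑ d1 ∈ Finset.Icc 1 D, ∑ d2 ∈ Finset.Icc 1 D, (1 : ℝ) / (Nat.lcm d1 d2 : ℕ) ≤
      (∑ m ∈ Finset.Icc 1 D, (1 : ℝ) / m) ^ 3 := by
  set h := ∑ m ∈ Finset.Icc 1 D, (1 : ℝ) / m with hh
  have h0 : 0 ≤ h := Finset.sum_nonneg (fun _ _ => by positivity)
  have h1 : ∀ d1 ∈ Finset.Icc 1 D, ∀ d2 ∈ Finset.Icc 1 D, (1 : ℝ) / (Nat.lcm d1 d2 : ℕ) ≤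
      ∑ g ∈ Finset.Icc 1 D, (g : ℝ) * ((if g ∣ d1 then (1 : ℝ) / d1 else 0) *
        (if g ∣ d2 then (1 : ℝ) / d2 else 0)) := by
    intro d1 hd1 d2 hd2
    rw [Finset.mem_Icc] at hd1 hd2
    have hg1 : 1 ≤ Nat.gcd d1 d2 := Nat.gcd_pos_of_pos_left _ hd1.1
    have hg2 : Nat.gcd d1 d2 ≤ D := (Nat.gcd_le_left _ hd1.1).trans hd1.2
    have h3 : (1 : ℝ) / (Nat.lcm d1 d2 : ℕ) = (Nat.gcd d1 d2 : ℕ) * ((1 : ℝ) / d1 * (1 / d2)) := by
      have e1 : ((Nat.gcd d1 d2 : ℕ) : ℝ) * (Nat.lcm d1 d2 : ℕ) = d1 * d2 := by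
        exact_mod_cast Nat.gcd_mul_lcm d1 d2
      have e2 : (0 : ℝ) < d1 := by exact_mod_cast hd1.1
      have e3 : (0 : ℝ) < d2 := by exact_mod_cast hd2.1
      have e4 : (0 : ℝ) < (Nat.lcm d1 d2 : ℕ) := by
        exact_mod_cast Nat.lcm_pos hd1.1 hd2.1
      rw [one_div_mul_one_div, ← e1]
      have e5 : (0 : ℝ) < (Nat.gcd d1 d2 : ℕ) := by exact_mod_cast hg1
      field_simp
    rw [h3]
    have h4 := Finset.single_le_sum (s := Finset.Icc 1 D) (f := fun g : ℕ => (g : ℝ) *
      ((if g ∣ d1 then (1 : ℝ) / d1 else 0) * (if g ∣ d2 then (1 : ℝ) / d2 else 0)))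
      (fun g _ => by positivity) (Finset.mem_Icc.2 ⟨hg1, hg2⟩)
    simp only [Nat.gcd_dvd_left, Nat.gcd_dvd_right, if_true] at h4
    exact h4
  calc ∑ d1 ∈ Finset.Icc 1 D, ∑ d2 ∈ Finset.Icc 1 D, (1 : ℝ) / (Nat.lcm d1 d2 : ℕ)
      ≤ ∑ d1 ∈ Finset.Icc 1 D, ∑ d2 ∈ Finset.Icc 1 D, ∑ g ∈ Finset.Icc 1 D, (g : ℝ) *
        ((if g ∣ d1 then (1 : ℝ) / d1 else 0) * (if g ∣ d2 then (1 : ℝ) / d2 else 0)) :=
        Finset.sum_le_sum fun d1 hd1 => Finset.sum_le_sum fun d2 hd2 => h1 d1 hd1 d2 hd2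
    _ = ∑ g ∈ Finset.Icc 1 D, (g : ℝ) * (∑ d ∈ (Finset.Icc 1 D).filter (fun d => g ∣ d),
        (1 : ℝ) / d) ^ 2 := by
        have e1 : ∀ d1 ∈ Finset.Icc 1 D, ∑ d2 ∈ Finset.Icc 1 D, ∑ g ∈ Finset.Icc 1 D, (g : ℝ) *
            ((if g ∣ d1 then (1 : ℝ) / d1 else 0) * (if g ∣ d2 then (1 : ℝ) / d2 else 0)) =
            ∑ g ∈ Finset.Icc 1 D, ∑ d2 ∈ Finset.Icc 1 D, (g : ℝ) *
            ((if g ∣ d1 then (1 : ℝ) / d1 else 0) * (if g ∣ d2 then (1 : ℝ) / d2 else 0)) :=
          fun d1 _ => Finset.sum_comm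
        rw [Finset.sum_congr rfl e1, Finset.sum_comm]
        apply Finset.sum_congr rfl
        intro g _
        rw [sq, Finset.sum_filter, Finset.sum_mul_sum, Finset.mul_sum]
        apply Finset.sum_congr rfl
        intro d1 _
        rw [Finset.mul_sum]
    _ ≤ ∑ g ∈ Finset.Icc 1 D, (g : ℝ) * (1 / g * h) ^ 2 := by
        apply Finset.sum_le_sum
        intro g hg
        have h5 := sum_mult_le D g (Finset.mem_Icc.1 hg).1
        have h6 : 0 ≤ ∑ d ∈ (Finset.Icc 1 D).filter (fun d => g ∣ d), (1 : ℝ) / d :=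
          Finset.sum_nonneg (fun _ _ => by positivity)
        gcongr
    _ = ∑ g ∈ Finset.Icc 1 D, 1 / (g : ℝ) * h ^ 2 := by
        apply Finset.sum_congr rfl
        intro g hg
        have : (0 : ℝ) < g := by exact_mod_cast (Finset.mem_Icc.1 hg).1
        field_simp
    _ = h ^ 3 := by rw [← Finset.sum_mul, ← hh]; ring

/-- Upper bound sieve for the primes in a weighted finite set, with individual remainders. -/
theorem weighted_sieve2 (A : Finset ℕ) (w : ℕ → ℝ) (hw : ∀ m, 0 ≤ w m) (X E1 E2 : ℝ)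
    (hX : 0 ≤ X) (hE1 : 0 ≤ E1) (hE2 : 0 ≤ E2) (R : ℕ) (hR : 1 ≤ R)
    (h : ∀ q : ℕ, 1 ≤ q → q ≤ R ^ 2 →
      |∑ m ∈ A.filter (fun m => q ∣ m), w m - X / q| ≤ E1 / q + E2) :
    ∑ p ∈ A.filter (fun p => p.Prime ∧ R < p), w p ≤
      4 * X / Real.log (R + 1) + E1 * (1 + Real.log R) ^ 3 + E2 * (R : ℝ) ^ 2 := by
  have hR' : (1 : ℝ) ≤ R := by exact_mod_cast hR
  have hrem : ∀ d : ℕ, d ∣ (wtSieve A w hw X R).prodPrimes → (d : ℝ) ≤ (R : ℝ) ^ 2 →
      |(wtSieve A w hw X R).rem d| ≤ E1 / d + E2 := by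
    intro d hd hdR
    have hd0 : 0 < d := Nat.pos_of_ne_zero
      (ne_zero_of_dvd_ne_zero (PP_squarefree 1 R).ne_zero hd)
    have h1 := h d hd0 (by exact_mod_cast hdR)
    simp only [BoundingSieve.rem, BoundingSieve.multSum, wtSieve]
    rw [← Finset.sum_filter, invAF_apply]
    convert h1 using 2
    ring
  have h2 := sifted_le (wtSieve A w hw X R) (R : ℝ) hR' (fun d => E1 / d + E2)
    (fun d => by positivity) hrem
  have h3 : Real.log ((R : ℝ) + 1) / 4 ≤ selS (wtSieve A w hw X R) R :=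
    selS_ge_log (a := 0) (q := 1) (N := 1) (R := R) (Or.inl rfl)
  have hlog : 0 < Real.log ((R : ℝ) + 1) := Real.log_pos (by linarith)
  have h4 : (wtSieve A w hw X R).totalMass / selS (wtSieve A w hw X R) R ≤
      4 * X / Real.log ((R : ℝ) + 1) := by
    change X / _ ≤ _
    have : X / selS (wtSieve A w hw X R) R ≤ X / (Real.log ((R : ℝ) + 1) / 4) := by
      apply div_le_div_of_nonneg_left hX (by positivity) h3
    refine this.trans (le_of_eq ?_)
    field_simp
  have h6 : (divisors (wtSieve A w hw X R).prodPrimes).filter (fun d : ℕ => (d : ℝ) ≤ R) ⊆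
      Finset.Icc 1 R := by
    intro d hd
    rw [Finset.mem_filter, Nat.mem_divisors] at hd
    rw [Finset.mem_Icc]
    refine ⟨Nat.pos_of_ne_zero (ne_zero_of_dvd_ne_zero hd.1.2 hd.1.1), by exact_mod_cast hd.2⟩
  have h5 : (∑ d1 ∈ (divisors (wtSieve A w hw X R).prodPrimes).filter (fun d : ℕ => (d : ℝ) ≤ R),
      ∑ d2 ∈ (divisors (wtSieve A w hw X R).prodPrimes).filter (fun d : ℕ => (d : ℝ) ≤ R),
        (E1 / ((Nat.lcm d1 d2 : ℕ) : ℝ) + E2)) ≤
      E1 * (1 + Real.log R) ^ 3 + E2 * (R : ℝ) ^ 2 := by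
    calc _ ≤ ∑ d1 ∈ Finset.Icc 1 R, ∑ d2 ∈ Finset.Icc 1 R,
          (E1 / ((Nat.lcm d1 d2 : ℕ) : ℝ) + E2) := by
          refine (Finset.sum_le_sum fun d1 _ => Finset.sum_le_sum_of_subset_of_nonneg h6
            (fun _ _ _ => by positivity)).trans ?_
          exact Finset.sum_le_sum_of_subset_of_nonneg h6
            (fun _ _ _ => Finset.sum_nonneg fun _ _ => by positivity)
      _ = E1 * (∑ d1 ∈ Finset.Icc 1 R, ∑ d2 ∈ Finset.Icc 1 R,
          (1 : ℝ) / (Nat.lcm d1 d2 : ℕ)) + E2 * (R : ℝ) ^ 2 := by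
          simp_rw [Finset.sum_add_distrib]
          congr 1
          · rw [Finset.mul_sum]
            apply Finset.sum_congr rfl
            intro d1 _
            rw [Finset.mul_sum]
            apply Finset.sum_congr rfl
            intro d2 _
            ring
          · simp; ring
      _ ≤ _ := by
          have h7 := sum_lcm_le R
          have h8 : ∑ m ∈ Finset.Icc 1 R, (1 : ℝ) / m ≤ 1 + Real.log R := by
            have := harmonic_le_one_add_log R
            rw [harmonic_eq_sum_Icc] at this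
            push_cast at this
            simpa only [one_div] using this
          have h9 : 0 ≤ ∑ m ∈ Finset.Icc 1 R, (1 : ℝ) / m :=
            Finset.sum_nonneg (fun _ _ => by positivity)
          have h10 : (∑ m ∈ Finset.Icc 1 R, (1 : ℝ) / m) ^ 3 ≤ (1 + Real.log R) ^ 3 := by gcongr
          have h11 := h7.trans h10
          gcongr
  have h10 : ∑ p ∈ A.filter (fun p => p.Prime ∧ R < p), w p ≤
      (wtSieve A w hw X R).siftedSum := by
    classical
    unfold BoundingSieve.siftedSum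
    change _ ≤ ∑ d ∈ A, if Nat.Coprime (PP 1 R) d then w d else 0
    rw [← Finset.sum_filter]
    apply Finset.sum_le_sum_of_subset_of_nonneg
    · intro p hp
      rw [Finset.mem_filter] at hp ⊢
      refine ⟨hp.1, ?_⟩
      rw [Nat.coprime_comm, hp.2.1.coprime_iff_not_dvd, prime_dvd_PP hp.2.1]
      intro hcon
      exact absurd hcon.1 (not_le.mpr hp.2.2)
    · intro i _ _
      exact hw i
  have h11 := h2.trans (add_le_add h4 h5)
  linarith

end Pool.Agent.H554.CB
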