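import Pool.Agent.H554.CB.Major
import Pool.Agent.H554.CB.Sieve

set_option autoImplicit false

open Finset

namespace Pool.Agent.H554.CB

open Pool.Agent.H469R2.NK (e norm_e e_add e_zero)

/-- product weight -/
noncomputable def wt (n : ℕ) (T : Finset ℕ) (x : ℕ) : ℝ := ∏ m ∈ T, psi ((n : ℝ) / (x : ℝ) ^ m)

lemma wt_nonneg (n : ℕ) (T : Finset ℕ) (x : ℕ) : 0 ≤ wt n T x :=
  prod_nonneg fun _ _ => (psi_pos _).le

/-- the positions of the top digits -/
def TT (R J : ℕ) : Finset ℕ := Finset.Ico (max 1 (J - R)) J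

lemma lt_ceil {z a d : ℕ} (hd : 0 < d) : z < (a + d - 1) / d ↔ d * z < a := by
  rw [← Nat.succ_le_iff, Nat.le_div_iff_mul_le hd]
  constructor
  · intro h
    have : z.succ * d = d * z + d := by rw [Nat.succ_mul, mul_comm]
    omega
  · intro h
    have : z.succ * d = d * z + d := by rw [Nat.succ_mul, mul_comm]
    omega

lemma sum_multiples (y H d : ℕ) (hd : 0 < d) (w : ℕ → ℝ) :
    ∑ x ∈ (Ico y (y + H)).filter (fun x => d ∣ x), w x =
      ∑ t ∈ range ((y + H + d - 1) / d - (y + d - 1) / d), w (d * ((y + d - 1) / d + t)) := by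
  have h1 : (Ico y (y + H)).filter (fun x => d ∣ x) =
      (Ico ((y + d - 1) / d) ((y + H + d - 1) / d)).image (fun z => d * z) := by
    ext x
    simp only [mem_filter, mem_Ico, mem_image]
    constructor
    · rintro ⟨⟨h2, h3⟩, ⟨z, rfl⟩⟩
      refine ⟨z, ⟨?_, (lt_ceil hd).2 h3⟩, rfl⟩
      by_contra h4
      rw [not_le, lt_ceil hd] at h4
      omega
    · rintro ⟨z, ⟨h2, h3⟩, rfl⟩
      refine ⟨⟨?_, (lt_ceil hd).1 h3⟩, Dvd.intro _ rfl⟩
      by_contra h4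
      rw [not_le, ← lt_ceil hd] at h4
      omega
  rw [h1, sum_image (by
    intro a _ b _ hab
    exact Nat.eq_of_mul_eq_mul_left hd hab), sum_Ico_eq_sum_range]

lemma ceil_bounds (a d : ℕ) (hd : 0 < d) : a ≤ d * ((a + d - 1) / d) ∧ d * ((a + d - 1) / d) < a + d := by
  constructor
  · by_contra h
    rw [not_le, ← lt_ceil hd] at h
    omega
  · have := Nat.mul_div_le (a + d - 1) d
    omega

lemma aux_u (u : ℕ) (hu : 7 ≤ u) : 64 * u + 66 ≤ 2 ^ (2 * u - 1) := by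
  induction u, hu using Nat.le_induction with
  | base => norm_num
  | succ u hu ih =>
    have : 2 * (u + 1) - 1 = (2 * u - 1) + 2 := by omega
    rw [this, pow_add]
    omega

lemma J_bound {n y H u i J : ℕ} (hu : 7 ≤ u) (hi1 : 32 * u ≤ i) (hi2 : i < 32 * u + 32)
    (hy : 2 ^ i ≤ y) (hn : (y + H) ^ J ≤ n) (hlog : Real.log n ^ 20 ≤ 2 ^ (i + 1)) :
    J ≤ 2 ^ (2 * u - 1) := by
  have h1 : (J : ℝ) ≤ Real.log n := by
    have h2 : ((y + H : ℕ) : ℝ) ^ J ≤ n := by exact_mod_cast hn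
    have h3 : (2 : ℝ) ^ i ≤ ((y + H : ℕ) : ℝ) := by
      have : 2 ^ i ≤ y + H := by omega
      exact_mod_cast this
    have h4 : Real.exp 1 ≤ ((y + H : ℕ) : ℝ) := by
      have h5 : Real.exp 1 ≤ 4 := by have := Real.exp_one_lt_d9; linarith
      have h6 : (4 : ℝ) ≤ 2 ^ i := by
        calc (4 : ℝ) = 2 ^ 2 := by norm_num
          _ ≤ 2 ^ i := pow_le_pow_right₀ (by norm_num) (by omega)
      linarith
    have h5 : Real.exp J ≤ n := by
      calc Real.exp J = (Real.exp 1) ^ J := by rw [← Real.exp_nat_mul]; simp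
        _ ≤ ((y + H : ℕ) : ℝ) ^ J := by gcongr
        _ ≤ n := h2
    have := Real.log_le_log (Real.exp_pos _) h5
    rwa [Real.log_exp] at this
  have h2 : (J : ℝ) ^ 20 ≤ 2 ^ (i + 1) := by
    refine le_trans ?_ hlog
    gcongr
  by_contra hcon
  rw [not_le] at hcon
  have h3 : ((2 : ℝ) ^ (2 * u - 1)) ^ 20 < (J : ℝ) ^ 20 := by
    have : (2 : ℝ) ^ (2 * u - 1) < J := by exact_mod_cast hcon
    gcongr
  rw [← pow_mul] at h3
  have h4 : (2 : ℝ) ^ (i + 1) ≤ 2 ^ ((2 * u - 1) * 20) := pow_le_pow_right₀ (by norm_num) (by omega)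
  linarith

theorem sz_of {n y H d u i J R : ℕ} (hu : 7 ≤ u) (hi1 : 32 * u ≤ i) (hi2 : i < 32 * u + 32)
    (hH : H = 2 ^ (i - 4 * u)) (hy : 2 ^ i ≤ y) (hyH : y + H ≤ 2 ^ (i + 1)) (hn0 : n ≠ 0)
    (hJ : J = Nat.log (y + H) n) (hlog : Real.log n ^ 20 ≤ 2 ^ (i + 1)) (hR : R = Nat.log 256 i)
    (hd : 0 < d) (hd2 : d ≤ (2 ^ u) ^ 2) :
    Sz n y H d J R ((y + d - 1) / d) ((y + H + d - 1) / d - (y + d - 1) / d) (2 * H / d) := by
  have hbase : 1 < y + H := by
    have : 1 < 2 ^ i := Nat.one_lt_two_pow (by omega)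
    omega
  have hn1 : (y + H) ^ J ≤ n := by rw [hJ]; exact Nat.pow_log_le_self _ hn0
  have hn2 : n < (y + H) ^ (J + 1) := by rw [hJ]; exact Nat.lt_pow_succ_log_self hbase _
  have hJb := J_bound hu hi1 hi2 hy hn1 hlog
  have hRi : R ≤ i := by rw [hR]; exact Nat.log_le_self _ _
  have hau := aux_u u hu
  have h2u : 2 * 2 ^ (2 * u - 1) = 2 ^ (2 * u) := by
    rw [← pow_succ']; congr 1; omega
  have hU : J + (2 * R + 2) ≤ 2 ^ (2 * u) := by omega
  have hR2 : 2 * R + 3 ≤ 2 ^ (2 * u) := by omega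
  have hd3 : d ≤ 2 ^ (2 * u) := by rw [← pow_mul, mul_comm u 2] at hd2; exact hd2
  have hHi : 2 ^ (4 * u) * H = 2 ^ i := by rw [hH, ← pow_add]; congr 1; omega
  have hHge : 2 ^ (28 * u) ≤ H := by rw [hH]; exact Nat.pow_le_pow_right (by norm_num) (by omega)
  have h44 : 2 ^ (2 * u) * 2 ^ (2 * u) = 2 ^ (4 * u) := by rw [← pow_add]; congr 1; omega
  have h4H : 2 ^ (4 * u) ≤ H := le_trans (Nat.pow_le_pow_right (by norm_num) (by omega)) hHge
  have h16 : 16 ≤ 2 ^ (2 * u) := by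
    calc 16 = 2 ^ 4 := by norm_num
      _ ≤ 2 ^ (2 * u) := Nat.pow_le_pow_right (by norm_num) (by omega)
  have hdH : d ≤ H := hd3.trans ((Nat.pow_le_pow_right (by norm_num) (by omega)).trans h4H)
  obtain ⟨c1, c2⟩ := ceil_bounds y d hd
  obtain ⟨c3, c4⟩ := ceil_bounds (y + H) d hd
  set X := (y + d - 1) / d with hX
  set X' := (y + H + d - 1) / d with hX'
  have hXX : X ≤ X' := by
    rw [hX, hX']; exact Nat.div_le_div_right (by omega)
  have hdL : d * (X' - X) ≤ H + d := by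
    rw [Nat.mul_sub]; omega
  have hdL2 : d * (X' - X) ≤ 2 * H := by omega
  have hdR : (0 : ℝ) < d := by exact_mod_cast hd
  have hHR : (0 : ℝ) < H := by
    have : 0 < H := by rw [hH]; positivity
    exact_mod_cast this
  -- real bounds on N = 2H/d
  have hNlow : (2 : ℝ) ^ (i - 6 * u + 1) ≤ 2 * H / d := by
    rw [le_div_iff₀ hdR]
    have h1 : 2 ^ (i - 6 * u + 1) * d ≤ 2 * H := by
      calc 2 ^ (i - 6 * u + 1) * d ≤ 2 ^ (i - 6 * u + 1) * 2 ^ (2 * u) := Nat.mul_le_mul_left _ hd3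
        _ = 2 * H := by rw [hH, ← pow_add, ← pow_succ']; congr 1; omega
    exact_mod_cast h1
  have hNup : 2 * (H : ℝ) / d ≤ 2 ^ (i + 1) := by
    have h1 : 2 * (H : ℝ) / d ≤ 2 * H := by
      apply div_le_self (by positivity)
      exact_mod_cast hd
    have h2 : 2 * H ≤ 2 ^ (i + 1) := by
      rw [hH, ← pow_succ']; exact Nat.pow_le_pow_right (by norm_num) (by omega)
    have h3 : 2 * (H : ℝ) ≤ 2 ^ (i + 1) := by exact_mod_cast h2
    linarith
  refine ⟨hd, by omega, c1, by omega, ?_, hn1, hn2, ?_, ?_, ?_, ?_, ?_, ?_, ?_⟩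
  · -- hLN
    rw [le_div_iff₀ hdR]
    have : (X' - X) * d ≤ 2 * H := by rw [mul_comm]; exact hdL2
    exact_mod_cast this
  · -- s1
    have h1 : d * (4 * ((J + (2 * R + 2)) * ((X' - X) + (2 * R + 2)))) ≤ d * X := by
      have h2 : d * (2 * R + 2) ≤ H := by
        calc d * (2 * R + 2) ≤ 2 ^ (2 * u) * 2 ^ (2 * u) := Nat.mul_le_mul hd3 (by omega)
          _ ≤ H := by rw [h44]; exact h4H
      have h3 : d * ((X' - X) + (2 * R + 2)) ≤ 3 * H := by rw [Nat.mul_add]; omega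
      calc d * (4 * ((J + (2 * R + 2)) * ((X' - X) + (2 * R + 2))))
          = 4 * ((J + (2 * R + 2)) * (d * ((X' - X) + (2 * R + 2)))) := by ring
        _ ≤ 4 * (2 ^ (2 * u) * (3 * H)) := by gcongr
        _ = 12 * 2 ^ (2 * u) * H := by ring
        _ ≤ 2 ^ (2 * u) * 2 ^ (2 * u) * H := by
            have : 12 * 2 ^ (2 * u) ≤ 2 ^ (2 * u) * 2 ^ (2 * u) := Nat.mul_le_mul_right _ (by omega)
            exact Nat.mul_le_mul_right _ this
        _ = 2 ^ i := by rw [h44, hHi]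
        _ ≤ d * X := hy.trans c1
    exact Nat.le_of_mul_le_mul_left h1 hd
  · -- s2
    calc 16 * (R * (2 * R + 2 + 1)) ≤ 2 ^ (2 * u) * (2 ^ (2 * u) * 2 ^ (2 * u)) := by
          have : R ≤ 2 ^ (2 * u) := by omega
          gcongr
          
      _ ≤ 2 ^ i := by rw [← pow_add, ← pow_add]; exact Nat.pow_le_pow_right (by norm_num) (by omega)
      _ ≤ y := hy
  · -- s3
    have h1 : (J : ℝ) + (2 * R + 2) ≤ 2 ^ (2 * u) := by exact_mod_cast hU
    have h2 : (d : ℝ) ≤ 2 ^ (2 * u) := by exact_mod_cast hd3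
    have h3 : (2 * (H : ℝ) / d) ^ (1 / 25 : ℝ) ≤ 2 ^ (4 * u) := by
      calc (2 * (H : ℝ) / d) ^ (1 / 25 : ℝ) ≤ ((2 : ℝ) ^ (i + 1)) ^ (1 / 25 : ℝ) := by gcongr
        _ ≤ ((2 : ℝ) ^ (25 * (4 * u))) ^ (1 / 25 : ℝ) := by
            gcongr
            · norm_num
            · omega
        _ = 2 ^ (4 * u) := by
            rw [mul_comm 25, pow_mul, ← Real.rpow_natCast ((2 : ℝ) ^ (4 * u)) 25,
              ← Real.rpow_mul (by positivity)]
            norm_num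
    calc 2 * ((J : ℝ) + (2 * R + 2)) ^ 2 * (d : ℝ) ^ 2 * (2 * (H : ℝ) / d) ^ (1 / 25 : ℝ)
        ≤ 2 * ((2 : ℝ) ^ (2 * u)) ^ 2 * ((2 : ℝ) ^ (2 * u)) ^ 2 * 2 ^ (4 * u) := by gcongr
      _ = 2 ^ (12 * u + 1) := by
          rw [← pow_mul, ← pow_succ', ← pow_add, ← pow_add]; congr 1; omega
      _ ≤ 2 ^ i := pow_le_pow_right₀ (by norm_num) (by omega)
      _ ≤ y := by exact_mod_cast hy
  · -- s4
    have h1 : (y : ℝ) + H ≤ 2 ^ (i + 1) := by exact_mod_cast hyH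
    refine h1.trans ?_
    calc (2 : ℝ) ^ (i + 1) = ((2 : ℝ) ^ (i - 6 * u + 1)) ^ (((i : ℝ) + 1) / ((i - 6 * u + 1 : ℕ) : ℝ)) := by
          rw [← Real.rpow_natCast, ← Real.rpow_natCast, ← Real.rpow_mul (by norm_num)]
          congr 1
          have : ((i - 6 * u + 1 : ℕ) : ℝ) ≠ 0 := by positivity
          push_cast at this ⊢
          field_simp
      _ ≤ ((2 : ℝ) ^ (i - 6 * u + 1)) ^ (3 / 2 - 1 / 25 : ℝ) := by
          apply Real.rpow_le_rpow_of_exponent_le (one_le_pow₀ (by norm_num))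
          rw [div_le_iff₀ (by positivity)]
          have h2 : ((i - 6 * u + 1 : ℕ) : ℝ) = (i : ℝ) - 6 * u + 1 := by
            have : 6 * u ≤ i := by omega
            push_cast [Nat.cast_sub this]; ring
          rw [h2]
          have h3 : 32 * (u : ℝ) ≤ i := by exact_mod_cast hi1
          have h4 : (7 : ℝ) ≤ u := by exact_mod_cast hu
          linarith
      _ ≤ _ := by gcongr
  · -- s5
    refine lt_of_lt_of_le ?_ hNlow
    apply pow_lt_pow_right₀ (by norm_num)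
    omega
  · -- s6
    calc 4 * (J * H) ≤ 2 ^ (2 * u) * (2 ^ (2 * u) * H) := by
          gcongr
          · omega
          · omega
      _ = 2 ^ i := by rw [← mul_assoc, h44, hHi]
      _ ≤ y := hy
  · -- s7
    calc H = 1 * H := (one_mul H).symm
      _ ≤ 2 ^ (4 * u) * H := Nat.mul_le_mul_right _ Nat.one_le_two_pow
      _ ≤ y := by rw [hHi]; exact hy

end Pool.Agent.H554.CB
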