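import Pool.Graph.R_seed8.H469R2.NK.Vdc

set_option autoImplicit false

open Finset

namespace Pool.Agent.H554.CB

open Pool.Agent.H469R2.NK (e norm_e e_add conj_e vdcH kusmin_landau_mono norm_sum_neg)

/-- forward difference of a sequence -/
def dif (f : ℕ → ℝ) : ℕ → ℝ := fun n => f (n + 1) - f n

lemma e_int (m : ℤ) : e m = 1 := by
  unfold e
  rw [Complex.exp_eq_one_iff]
  exact ⟨m, by push_cast; ring⟩

lemma e_sub_int (x : ℝ) (m : ℤ) : e (x - m) = e x := by
  have h := e_add (x - m) m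
  rw [sub_add_cancel, e_int, mul_one] at h
  exact h.symm

/-- a monotone sequence crosses a level once -/
lemma split_mono (δ : ℕ → ℝ) (N : ℕ) (y : ℝ) (hm : ∀ n, n + 1 < N → δ n ≤ δ (n + 1)) :
    ∃ a ≤ N, (∀ t < a, δ t < y) ∧ (∀ t, a ≤ t → t < N → y ≤ δ t) := by
  induction N with
  | zero => exact ⟨0, le_rfl, fun t ht => absurd ht (Nat.not_lt_zero _),
      fun t _ ht => absurd ht (Nat.not_lt_zero _)⟩
  | succ N ih =>
    obtain ⟨a, haN, h1, h2⟩ := ih (fun n hn => hm n (by omega))
    rcases Nat.lt_or_ge a N with ha | ha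
    · refine ⟨a, by omega, h1, fun t hat ht => ?_⟩
      rcases Nat.lt_or_ge t N with h | h
      · exact h2 t hat h
      · have : t = N := by omega
        subst this
        obtain ⟨s, rfl⟩ : ∃ s, t = s + 1 := ⟨t - 1, by omega⟩
        exact (h2 s (by omega) (by omega)).trans (hm s (by omega))
    · have haN' : a = N := le_antisymm haN ha
      subst haN'
      by_cases h : δ a < y
      · refine ⟨a + 1, le_rfl, fun t ht => ?_, fun t h3 h4 => by omega⟩
        rcases Nat.lt_or_ge t a with h5 | h5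
        · exact h1 t h5
        · have : t = a := by omega
          rw [this]; exact h
      · refine ⟨a, by omega, h1, fun t h3 h4 => ?_⟩
        have : t = a := by omega
        rw [this]; exact not_lt.1 h

lemma lin_lower (δ : ℕ → ℝ) (N : ℕ) (l : ℝ) (h : ∀ n, n + 1 < N → l ≤ δ (n + 1) - δ n) (a : ℕ) :
    ∀ n, a + n < N → δ a + n * l ≤ δ (a + n) := by
  intro n
  induction n with
  | zero => intro _; simp
  | succ n ih =>
    intro hn
    have h1 := ih (by omega)
    have h2 := h (a + n) (by omega)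
    push_cast
    rw [← add_assoc a n 1]
    linarith

lemma lin_upper (δ : ℕ → ℝ) (N : ℕ) (l : ℝ) (h : ∀ n, n + 1 < N → δ (n + 1) - δ n ≤ l) :
    ∀ n, n < N → δ n ≤ δ 0 + n * l := by
  intro n
  induction n with
  | zero => intro _; simp
  | succ n ih =>
    intro hn
    have h1 := ih (by omega)
    have h2 := h n (by omega)
    push_cast
    linarith

lemma norm_sum_e_le (f : ℕ → ℝ) (s : Finset ℕ) : ‖∑ n ∈ s, e (f n)‖ ≤ s.card := by
  refine (norm_sum_le _ _).trans ?_
  simp [norm_e]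

/-- one block between consecutive integers -/
lemma block (x : ℕ → ℝ) (N : ℕ) (l θ : ℝ) (hl : 0 < l) (hθ : 0 < θ) (m : ℤ)
    (h0 : ∀ n < N, (m : ℝ) ≤ x (n + 1) - x n) (h1 : ∀ n < N, x (n + 1) - x n ≤ m + 1)
    (h2 : ∀ n, n + 1 < N → l ≤ (x (n + 2) - x (n + 1)) - (x (n + 1) - x n)) :
    ‖∑ n ∈ range N, e (x n)‖ ≤ 2 * (θ / l + 1) + 2 / θ := by
  set δ : ℕ → ℝ := fun n => x (n + 1) - x n with hδ
  have hinc : ∀ n, n + 1 < N → l ≤ δ (n + 1) - δ n := fun n hn => h2 n hn
  have hmono : ∀ n, n + 1 < N → δ n ≤ δ (n + 1) := fun n hn => by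
    have := hinc n hn; linarith
  obtain ⟨a, haN, ha1, ha2⟩ := split_mono δ N (m + θ) hmono
  obtain ⟨b, hbN, hb1, hb2⟩ := split_mono δ N (m + 1 - θ) hmono
  have hθl : 0 ≤ θ / l := by positivity
  have hca : (a : ℝ) ≤ θ / l + 1 := by
    rcases Nat.eq_zero_or_pos a with h | h
    · rw [h]; push_cast; linarith
    · have h3 := lin_lower δ N l hinc 0 (a - 1) (by omega)
      rw [Nat.zero_add] at h3
      have h4 := ha1 (a - 1) (by omega)
      have h5 := h0 0 (by omega)
      have h6 : ((a - 1 : ℕ) : ℝ) = a - 1 := by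
        rw [Nat.cast_sub h]; simp
      rw [h6] at h3
      have h5' : (m : ℝ) ≤ δ 0 := h5
      have h7 : ((a : ℝ) - 1) * l ≤ θ := by linarith
      have h8 : (a : ℝ) - 1 ≤ θ / l := by rw [le_div_iff₀ hl]; exact h7
      linarith
  have hcb : ((N - b : ℕ) : ℝ) ≤ θ / l + 1 := by
    rcases Nat.lt_or_ge b N with h | h
    · have h3 := lin_lower δ N l hinc b (N - 1 - b) (by omega)
      have h4 := hb2 b le_rfl h
      rw [show b + (N - 1 - b) = N - 1 by omega] at h3
      have h5 : δ (N - 1) ≤ m + 1 := h1 (N - 1) (by omega)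
      have h6 : ((N - 1 - b : ℕ) : ℝ) = ((N - b : ℕ) : ℝ) - 1 := by
        rw [show N - b = (N - 1 - b) + 1 by omega]; push_cast; ring
      rw [h6] at h3
      have h7 : (((N - b : ℕ) : ℝ) - 1) * l ≤ θ := by linarith
      have h8 : ((N - b : ℕ) : ℝ) - 1 ≤ θ / l := by rw [le_div_iff₀ hl]; exact h7
      linarith
    · rw [show N - b = 0 by omega]; push_cast; linarith
  have h2θ : 0 < 2 / θ := by positivity
  rcases Nat.lt_or_ge b a with hab | hab
  · have h3 := norm_sum_e_le x (range N)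
    rw [card_range] at h3
    have h4 : (N : ℝ) ≤ a + ((N - b : ℕ) : ℝ) := by
      have : N ≤ a + (N - b) := by omega
      exact_mod_cast this
    linarith
  · have hsplit : ∑ n ∈ range N, e (x n) = ∑ n ∈ range a, e (x n) +
        (∑ n ∈ Ico a b, e (x n) + ∑ n ∈ Ico b N, e (x n)) := by
      rw [sum_Ico_consecutive _ hab hbN, ← sum_range_add_sum_Ico _ haN]
    have hA := norm_sum_e_le x (range a)
    rw [card_range] at hA
    have hC := norm_sum_e_le x (Ico b N)
    rw [Nat.card_Ico] at hC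
    have hB : ‖∑ n ∈ Ico a b, e (x n)‖ ≤ 2 / θ := by
      rw [sum_Ico_eq_sum_range]
      have hk := kusmin_landau_mono (fun n => x (a + n) - m * n) (b - a) hθ (by
        intro n hn
        have h3 := ha2 (a + n) (by omega) (by omega)
        simp only [hδ] at h3
        rw [show a + (n + 1) = a + n + 1 by ring]
        push_cast
        linarith) (by
        intro n hn
        have h3 := hb1 (a + n) (by omega)
        simp only [hδ] at h3
        rw [show a + (n + 1) = a + n + 1 by ring]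
        push_cast
        linarith) (by
        intro n hn
        have h3 := hmono (a + n) (by omega)
        simp only [hδ] at h3
        rw [show a + (n + 1) = a + n + 1 by ring, show a + (n + 2) = a + n + 1 + 1 by ring]
        push_cast
        linarith)
      refine le_of_eq_of_le ?_ hk
      congr 1
      refine sum_congr rfl fun n _ => ?_
      have h3 := e_sub_int (x (a + n)) (m * n)
      push_cast at h3
      exact h3.symm
    rw [hsplit]
    calc ‖_‖ ≤ ‖∑ n ∈ range a, e (x n)‖ + ‖∑ n ∈ Ico a b, e (x n) + ∑ n ∈ Ico b N, e (x n)‖ :=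
          norm_add_le _ _
      _ ≤ ‖∑ n ∈ range a, e (x n)‖ + (‖∑ n ∈ Ico a b, e (x n)‖ + ‖∑ n ∈ Ico b N, e (x n)‖) := by
          gcongr; exact norm_add_le _ _
      _ ≤ _ := by linarith

lemma blocks (l θ : ℝ) (hl : 0 < l) (hθ : 0 < θ) (K : ℕ) : ∀ (x : ℕ → ℝ) (N : ℕ) (m : ℤ),
    (∀ n < N, (m : ℝ) ≤ x (n + 1) - x n) → (∀ n < N, x (n + 1) - x n < m + K) →
    (∀ n, n + 1 < N → l ≤ (x (n + 2) - x (n + 1)) - (x (n + 1) - x n)) →
    ‖∑ n ∈ range N, e (x n)‖ ≤ K * (2 * (θ / l + 1) + 2 / θ) := by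
  induction K with
  | zero =>
    intro x N m h0 h1 _
    rcases Nat.eq_zero_or_pos N with h | h
    · subst h; simp
    · exfalso
      have h3 := h0 0 h
      have h4 := h1 0 h
      push_cast at h4
      linarith
  | succ K ih =>
    intro x N m h0 h1 h2
    have hmono : ∀ n, n + 1 < N → (fun n => x (n + 1) - x n) n ≤ (fun n => x (n + 1) - x n) (n + 1) :=
      fun n hn => by
      have := h2 n hn
      simp only
      rw [show n + 1 + 1 = n + 2 by ring]
      linarith
    obtain ⟨a, haN, ha1, ha2⟩ := split_mono (fun n => x (n + 1) - x n) N (m + 1) hmono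
    have hA := block x a l θ hl hθ m (fun n hn => h0 n (by omega)) (fun n hn => (ha1 n hn).le)
      (fun n hn => h2 n (by omega))
    have hB := ih (fun n => x (a + n)) (N - a) (m + 1) (fun n hn => by
      have := ha2 (a + n) (by omega) (by omega)
      push_cast
      exact this) (fun n hn => by
      have := h1 (a + n) (by omega)
      push_cast at this ⊢
      rw [show a + (n + 1) = a + n + 1 by ring]
      linarith) (fun n hn => by
      have := h2 (a + n) (by omega)
      rw [show a + (n + 1) = a + n + 1 by ring, show a + (n + 2) = a + n + 2 by ring]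
      exact this)
    rw [← sum_range_add_sum_Ico _ haN, sum_Ico_eq_sum_range]
    refine (norm_add_le _ _).trans ?_
    push_cast
    linarith

/-- second difference test -/
theorem test_two (c l : ℝ) (hl : 0 < l) (hl1 : l ≤ 1) (hc : 1 ≤ c) (x : ℕ → ℝ) (N : ℕ)
    (h2 : ∀ n < N, l ≤ dif (dif x) n ∧ dif (dif x) n ≤ c * l) :
    ‖∑ n ∈ range N, e (x n)‖ ≤ 6 * c * Real.sqrt l * N + 12 / Real.sqrt l := by
  have hs : 0 < Real.sqrt l := Real.sqrt_pos.2 hl
  have hs1 : Real.sqrt l ≤ 1 := by rw [Real.sqrt_le_one]; exact hl1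
  have hss : Real.sqrt l * Real.sqrt l = l := Real.mul_self_sqrt hl.le
  rcases Nat.eq_zero_or_pos N with h | hN
  · subst h; simp; positivity
  set K : ℕ := ⌈(N : ℝ) * (c * l)⌉₊ + 1 with hK
  have hKle : (K : ℝ) ≤ N * (c * l) + 2 := by
    rw [hK]
    have := Nat.ceil_lt_add_one (show 0 ≤ (N : ℝ) * (c * l) by positivity)
    push_cast
    linarith
  have hd : ∀ n, dif (dif x) n = (x (n + 2) - x (n + 1)) - (x (n + 1) - x n) := fun n => rfl
  have hmono : ∀ n, n < N → dif x 0 ≤ dif x n := by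
    intro n hn
    have := lin_lower (dif x) N l (fun n hn => (h2 n (by omega)).1) 0 n (by omega)
    rw [Nat.zero_add] at this
    have h3 : 0 ≤ (n : ℝ) * l := by positivity
    linarith
  have hup : ∀ n, n < N → dif x n ≤ dif x 0 + n * (c * l) :=
    lin_upper (dif x) N (c * l) (fun n hn => (h2 n (by omega)).2)
  have h := blocks l (Real.sqrt l) hl hs K x N ⌊dif x 0⌋ (fun n hn => by
    have h3 := hmono n hn
    have h4 := Int.floor_le (dif x 0)
    exact h4.trans h3) (fun n hn => by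
    have h3 := hup n hn
    have h4 := Int.lt_floor_add_one (dif x 0)
    have h5 : (N : ℝ) * (c * l) ≤ ⌈(N : ℝ) * (c * l)⌉₊ := Nat.le_ceil _
    have h6 : (n : ℝ) * (c * l) ≤ N * (c * l) := by
      have : (n : ℝ) ≤ N := by exact_mod_cast hn.le
      gcongr
    have h7 : x (n + 1) - x n = dif x n := rfl
    rw [h7, hK]
    push_cast
    linarith) (fun n hn => (h2 n (by omega)).1)
  refine h.trans ?_
  have e1 : Real.sqrt l / l = 1 / Real.sqrt l := by
    rw [div_eq_div_iff hl.ne' hs.ne', one_mul]; exact hss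
  rw [e1]
  have e2 : (1 : ℝ) ≤ 1 / Real.sqrt l := by rw [le_div_iff₀ hs]; linarith
  calc (K : ℝ) * (2 * (1 / Real.sqrt l + 1) + 2 / Real.sqrt l)
      ≤ (N * (c * l) + 2) * (6 * (1 / Real.sqrt l)) := by
        gcongr
        have : 2 / Real.sqrt l = 2 * (1 / Real.sqrt l) := by ring
        rw [this]; linarith
    _ = 6 * c * (l / Real.sqrt l) * N + 12 / Real.sqrt l := by ring
    _ = _ := by
        rw [show l / Real.sqrt l = Real.sqrt l by
          rw [div_eq_iff hs.ne']; exact hss.symm]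

lemma dif_add (f g : ℕ → ℝ) : dif (fun n => f n + g n) = fun n => dif f n + dif g n := by
  funext n; unfold dif; ring

lemma dif_iter_shift (f : ℕ → ℝ) (k a : ℕ) (n : ℕ) :
    dif^[k] (fun n => f (n + a)) n = dif^[k] f (n + a) := by
  induction k generalizing f with
  | zero => rfl
  | succ k ih =>
    rw [Function.iterate_succ_apply, Function.iterate_succ_apply]
    have : dif (fun n => f (n + a)) = fun n => dif f (n + a) := by
      funext n; unfold dif; simp only; rw [show n + 1 + a = n + a + 1 by ring]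
    rw [this, ih]

lemma dif_iter_sub (f g : ℕ → ℝ) (k : ℕ) (n : ℕ) :
    dif^[k] (fun n => f n - g n) n = dif^[k] f n - dif^[k] g n := by
  induction k generalizing f g with
  | zero => rfl
  | succ k ih =>
    rw [Function.iterate_succ_apply, Function.iterate_succ_apply, Function.iterate_succ_apply, ← ih]
    have : dif (fun n => f n - g n) = fun n => dif f n - dif g n := by
      funext n; unfold dif; ring
    rw [this]

lemma dif_iter_tele (f : ℕ → ℝ) (k h n : ℕ) :
    dif^[k] (fun n => f (n + h) - f n) n = ∑ j ∈ range h, dif^[k + 1] f (n + j) := by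
  rw [dif_iter_sub (fun n => f (n + h)) f, dif_iter_shift]
  induction h with
  | zero => simp
  | succ h ih =>
    rw [sum_range_succ, ← ih, Function.iterate_succ_apply']
    unfold dif
    rw [show n + (h + 1) = n + h + 1 by ring]
    ring

/-- `k`-th difference test with an absolute constant -/
theorem test_k (c : ℝ) (hc : 1 ≤ c) (N : ℝ) (hN : 1 ≤ N) (j : ℕ) : ∀ (L : ℕ) (f : ℕ → ℝ) (l : ℝ),
    (L : ℝ) ≤ N → N ^ (-(3 / 2) : ℝ) ≤ l → l ≤ N ^ (-(1 / 25 - 1 / 50 / 2 ^ j) : ℝ) →
    (∀ n < L, l ≤ dif^[j + 2] f n ∧ dif^[j + 2] f n ≤ c * l) →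
    ‖∑ n ∈ range L, e (f n)‖ ≤ (6 * c + 12) * N ^ (1 - 1 / 100 / 2 ^ j : ℝ) := by
  have hN0 : 0 < N := by linarith
  induction j with
  | zero =>
    intro L f l hL h1 h2 h3
    have hl : 0 < l := lt_of_lt_of_le (by positivity) h1
    have h2' : l ≤ N ^ (-(1 / 50) : ℝ) := by
      refine h2.trans (le_of_eq ?_)
      norm_num
    have hl1 : l ≤ 1 := h2'.trans (Real.rpow_le_one_of_one_le_of_nonpos hN (by norm_num))
    have h := test_two c l hl hl1 hc f L h3
    have hs : 0 < Real.sqrt l := Real.sqrt_pos.2 hl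
    have hs1 : Real.sqrt l ≤ N ^ (-(1 / 100) : ℝ) := by
      rw [Real.sqrt_le_left (by positivity), ← Real.rpow_natCast, ← Real.rpow_mul hN0.le]
      refine h2'.trans (le_of_eq ?_)
      norm_num
    have hs2 : N ^ (-(3 / 4) : ℝ) ≤ Real.sqrt l := by
      apply Real.le_sqrt_of_sq_le
      rw [← Real.rpow_natCast, ← Real.rpow_mul hN0.le]
      refine le_trans (le_of_eq ?_) h1
      norm_num
    have hA : Real.sqrt l * L ≤ N ^ (1 - 1 / 100 / 2 ^ 0 : ℝ) := by
      calc Real.sqrt l * L ≤ N ^ (-(1 / 100) : ℝ) * N := by gcongr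
        _ = N ^ (-(1 / 100) : ℝ) * N ^ (1 : ℝ) := by rw [Real.rpow_one]
        _ = N ^ (1 - 1 / 100 / 2 ^ 0 : ℝ) := by
          rw [← Real.rpow_add hN0]; norm_num
    have hB : 1 / Real.sqrt l ≤ N ^ (1 - 1 / 100 / 2 ^ 0 : ℝ) := by
      calc 1 / Real.sqrt l ≤ 1 / N ^ (-(3 / 4) : ℝ) := by gcongr
        _ = N ^ (3 / 4 : ℝ) := by
          rw [Real.rpow_neg hN0.le, one_div, inv_inv]
        _ ≤ _ := by
          apply Real.rpow_le_rpow_of_exponent_le hN
          norm_num
    calc ‖_‖ ≤ 6 * c * Real.sqrt l * L + 12 / Real.sqrt l := h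
      _ = 6 * c * (Real.sqrt l * L) + 12 * (1 / Real.sqrt l) := by ring
      _ ≤ 6 * c * N ^ (1 - 1 / 100 / 2 ^ 0 : ℝ) + 12 * N ^ (1 - 1 / 100 / 2 ^ 0 : ℝ) := by gcongr
      _ = _ := by ring
  | succ j ih =>
    intro L f l hL h1 h2 h3
    have hl : 0 < l := lt_of_lt_of_le (by positivity) h1
    set ε : ℝ := 1 / 100 / 2 ^ j with hε
    have hε0 : 0 < ε := by positivity
    have hε1 : ε ≤ 1 := by
      rw [hε, div_le_one (by positivity)]
      have : (1 : ℝ) ≤ 2 ^ j := one_le_pow₀ (by norm_num)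
      linarith
    have hεs : (1 : ℝ) / 100 / 2 ^ (j + 1) = ε / 2 := by rw [hε, pow_succ]; ring
    have hεt : (1 : ℝ) / 50 / 2 ^ (j + 1) = ε := by rw [hε, pow_succ]; ring
    have hεu : (1 : ℝ) / 50 / 2 ^ j = 2 * ε := by rw [hε]; ring
    rw [hεs]
    rw [hεt] at h2
    rw [hεu] at ih
    set M : ℕ := ⌈N ^ ε⌉₊ with hM
    have hNε : 1 ≤ N ^ ε := Real.one_le_rpow hN hε0.le
    have hMge : N ^ ε ≤ M := Nat.le_ceil _
    have hMlt : (M : ℝ) < N ^ ε + 1 := Nat.ceil_lt_add_one (by linarith)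
    have hMpos : (0 : ℝ) < M := by linarith
    have hNεN : N ^ ε ≤ N := by
      calc N ^ ε ≤ N ^ (1 : ℝ) := Real.rpow_le_rpow_of_exponent_le hN hε1
        _ = N := Real.rpow_one N
    have hC : 18 ≤ 6 * c + 12 := by linarith
    have hS : ∀ h ∈ Ico 1 M, ‖∑ n ∈ range (L - h), e (f (n + h)) * (starRingEnd ℂ) (e (f n))‖ ≤
        (6 * c + 12) * N ^ (1 - ε) := by
      intro h hh
      rw [mem_Ico] at hh
      have hh1 : (1 : ℝ) ≤ h := by exact_mod_cast hh.1
      have hhN : (h : ℝ) ≤ N ^ ε := by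
        have : (h : ℝ) + 1 ≤ M := by exact_mod_cast hh.2
        linarith
      have h4 := ih (L - h) (fun n => f (n + h) - f n) (h * l) (by
          have : ((L - h : ℕ) : ℝ) ≤ L := by exact_mod_cast Nat.sub_le _ _
          linarith) (by nlinarith) (by
          calc (h : ℝ) * l ≤ N ^ ε * N ^ (-(1 / 25 - ε) : ℝ) := by gcongr
            _ = _ := by rw [← Real.rpow_add hN0]; congr 1; ring) (by
          intro n hn
          rw [dif_iter_tele]
          constructor
          · calc (h : ℝ) * l = ∑ j ∈ range h, l := by simp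
              _ ≤ _ := sum_le_sum fun i hi => (h3 (n + i) (by
                have := mem_range.1 hi; omega)).1
          · calc _ ≤ ∑ j ∈ range h, c * l := sum_le_sum fun i hi => (h3 (n + i) (by
                have := mem_range.1 hi; omega)).2
              _ = _ := by simp; ring)
      refine le_of_eq_of_le ?_ h4
      congr 1
      refine sum_congr rfl fun n _ => ?_
      rw [conj_e, ← e_add, sub_eq_add_neg]
    have hv := vdcH (fun n => e (f n)) (fun n => (norm_e _).le) L M
    have hsum : ∑ h ∈ Ico 1 M, ‖∑ n ∈ range (L - h), e (f (n + h)) * (starRingEnd ℂ) (e (f n))‖ ≤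
        M * ((6 * c + 12) * N ^ (1 - ε)) := by
      refine (sum_le_sum hS).trans ?_
      rw [sum_const, Nat.card_Ico, nsmul_eq_mul]
      have : ((M - 1 : ℕ) : ℝ) ≤ M := by exact_mod_cast Nat.sub_le _ _
      gcongr
    set S := ‖∑ n ∈ range L, e (f n)‖ with hSdef
    have hS0 : 0 ≤ S := norm_nonneg _
    have h5 : (M : ℝ) * S ^ 2 ≤ (3 * N) * (N + 2 * (M * ((6 * c + 12) * N ^ (1 - ε)))) := by
      refine hv.trans ?_
      gcongr
      linarith
    have h6 : S ^ 2 ≤ (3 + 6 * (6 * c + 12)) * N ^ (2 - ε) := by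
      have h7 : N ^ (2 - ε) * N ^ ε = N ^ 2 := by
        rw [← Real.rpow_add hN0, ← Real.rpow_natCast]; congr 1; push_cast; ring
      have h8 : N * N ^ (1 - ε) = N ^ (2 - ε) := by
        nth_rewrite 1 [← Real.rpow_one N]
        rw [← Real.rpow_add hN0]; congr 1; ring
      have h9 : (M : ℝ) * S ^ 2 ≤ M * ((3 + 6 * (6 * c + 12)) * N ^ (2 - ε)) := by
        calc (M : ℝ) * S ^ 2 ≤ (3 * N) * (N + 2 * (M * ((6 * c + 12) * N ^ (1 - ε)))) := h5
          _ = 3 * (N ^ (2 - ε) * N ^ ε) + M * (6 * (6 * c + 12) * (N * N ^ (1 - ε))) := by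
            rw [h7]; ring
          _ ≤ 3 * (N ^ (2 - ε) * M) + M * (6 * (6 * c + 12) * (N * N ^ (1 - ε))) := by gcongr
          _ = _ := by rw [h8]; ring
      exact le_of_mul_le_mul_left h9 hMpos
    have h10 : (3 + 6 * (6 * c + 12)) * N ^ (2 - ε) ≤ ((6 * c + 12) * N ^ (1 - ε / 2)) ^ 2 := by
      have h11 : N ^ (2 - ε) = (N ^ (1 - ε / 2)) ^ 2 := by
        rw [← Real.rpow_natCast, ← Real.rpow_mul hN0.le]; congr 1; push_cast; ring
      rw [mul_pow, h11]
      gcongr
      nlinarith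
    exact le_of_pow_le_pow_left₀ (by norm_num) (by positivity) (h6.trans h10)

end Pool.Agent.H554.CB
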